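import Pool.Agent.Helper77.GJ.Gen
import Pool.Agent.Helper77.CI.Tower2

/-!
# MP_8096dd_al : generic Jordan type, the theorem for representations
-/

namespace H77GJ

open Matrix Module H77CI

section idem

variable {k V : Type} [Field k] [AddCommGroup V] [Module k V] {G : Type} [Group G]

/-- The scalar part of the image of the identity under an idempotent is `0` or `1`. -/
theorem scalar_zero_or_one [FiniteDimensional k V] [CharP k 2] {ρ : Representation k G V}
    (hodd : Odd (Module.finrank k V)) (hρ : LocalEnd ρ)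
    {φ : Module.End k V →ₗ[k] Module.End k V}
    (hφ : ∀ g u, φ (ρ g * u * ρ g⁻¹) = ρ g * φ u * ρ g⁻¹) (hφφ : ∀ u, φ (φ u) = φ u) :
    (∀ g, φ 1 * ρ g = ρ g * φ 1) ∧ (IsNilpotent (φ 1) ∨ IsNilpotent (φ 1 - 1)) := by
  have hm : ((Module.finrank k V : ℕ) : k) = 1 := by
    obtain ⟨n, hn⟩ := hodd
    rw [hn]
    push_cast
    rw [CharTwo.two_eq_zero, zero_mul, zero_add]
  have h1 : ∀ g, φ 1 * ρ g = ρ g * φ 1 := by
    intro g
    have h2 := hφ g 1
    rw [mul_one, rho_mul_inv] at h2
    calc φ 1 * ρ g = ρ g * φ 1 * ρ g⁻¹ * ρ g := by rw [← h2]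
      _ = ρ g * φ 1 := by rw [mul_assoc (ρ g * φ 1), rho_inv_mul, mul_one]
  refine ⟨h1, ?_⟩
  obtain ⟨c, hc⟩ := hρ _ h1
  obtain ⟨b, hb, hb'⟩ := exists_comm_rep ρ (LinearMap.trace k V ∘ₗ φ) (by
    intro g u
    rw [LinearMap.comp_apply, LinearMap.comp_apply, hφ, LinearMap.trace_mul_comm, ← mul_assoc,
      rho_inv_mul, one_mul])
  set ν := φ 1 - c • (1 : Module.End k V) with hν
  have hνc : ∀ g, ν * ρ g = ρ g * ν := by
    intro g
    rw [hν, sub_mul, mul_sub, h1]
    simp
  have htν : LinearMap.trace k V (φ ν) = 0 := by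
    have h2 : LinearMap.trace k V (φ ν) = LinearMap.trace k V (b * ν) := hb' ν
    rw [h2]
    obtain ⟨d, hd⟩ := hρ b hb
    obtain ⟨e, he⟩ := hρ (b * ν) (by intro g; rw [mul_assoc, hνc, ← mul_assoc, hb, mul_assoc])
    -- the trace of an element which is a nilpotent on both sides
    have hnt : Nontrivial V := by
      apply Module.nontrivial_of_finrank_pos (R := k)
      obtain ⟨n, hn⟩ := hodd
      omega
    have he0 : e = 0 := by
      by_contra hne
      have h3 : IsUnit (b * ν) := by
        have h4 : b * ν = (b * ν - e • 1) + e • 1 := by abel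
        rw [h4]
        have h5 : IsUnit (e • (1 : Module.End k V)) := by
          refine ⟨⟨e • 1, e⁻¹ • 1, ?_, ?_⟩, rfl⟩
          · rw [smul_mul_smul_comm, mul_inv_cancel₀ hne, one_mul, one_smul]
          · rw [smul_mul_smul_comm, inv_mul_cancel₀ hne, one_mul, one_smul]
        refine IsNilpotent.isUnit_add_right_of_commute he h5 ?_
        exact (Commute.one_right _).smul_right e
      have h6 : IsUnit ν := by
        rw [LinearMap.isUnit_iff_ker_eq_bot]
        rw [LinearMap.isUnit_iff_ker_eq_bot] at h3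
        rw [eq_bot_iff] at h3 ⊢
        intro v hv
        apply h3
        rw [LinearMap.mem_ker] at hv ⊢
        rw [Module.End.mul_apply, hv, map_zero]
      exact hc.not_isUnit h6
    rw [he0, zero_smul, sub_zero] at he
    exact (LinearMap.isNilpotent_trace_of_isNilpotent he).eq_zero
  have ht1 : LinearMap.trace k V (φ 1) = c := by
    have h2 : φ 1 = c • (1 : Module.End k V) + ν := by rw [hν]; abel
    rw [h2, map_add, map_smul, LinearMap.trace_one, hm,
      (LinearMap.isNilpotent_trace_of_isNilpotent hc).eq_zero]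
    simp
  have hcc : c * c = c := by
    have h2 : φ (φ 1) = c • φ 1 + φ ν := by
      have : φ 1 = c • (1 : Module.End k V) + ν := by rw [hν]; abel
      conv_lhs => rw [this]
      rw [map_add, map_smul]
    have h3 := congrArg (LinearMap.trace k V) h2
    rw [hφφ, map_add, map_smul, htν, ht1, add_zero, smul_eq_mul] at h3
    exact h3.symm
  rcases mul_eq_zero.1 (show c * (c - 1) = 0 by rw [mul_sub, hcc, mul_one, sub_self]) with h | h
  · left
    rw [h, zero_smul, sub_zero] at hν
    rw [← hν]
    exact hc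
  · right
    rw [sub_eq_zero.1 h, one_smul] at hν
    rw [← hν]
    exact hc

end idem

section bridge

variable {k V : Type} [Field k] [AddCommGroup V] [Module k V] {G : Type} [Group G]

/-- The theorem for one projection. -/
theorem four_dvd_pr [IsAlgClosed k] [CharP k 2] [FiniteDimensional k V]
    {ρ : Representation k G V} (hodd : Odd (Module.finrank k V)) (hind : Indec ρ)
    {J : Type} [Fintype J] [DecidableEq J] (g : J → G) (hg : ∀ j, g j ∈ Cen ρ)
    (hgg : ∀ j, ρ (g j) * ρ (g j) = 1) (c : J → k)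
    (hc : 2 * Module.finrank k (LinearMap.range (∑ j, c j • (ρ (g j) - 1))) + 1
      = Module.finrank k V)
    {A B : Submodule k (Module.End k V)} (hA : CInv ρ A) (hB : CInv ρ B) (hAB : IsCompl A B)
    (hnil : IsNilpotent (pr A B hAB 1)) : 4 ∣ Module.finrank k A := by
  have hloc := localEnd_of_indec hodd hind
  have hφ : ∀ g, pr A B hAB ∘ₗ LR (ρ g) (ρ g⁻¹) = LR (ρ g) (ρ g⁻¹) ∘ₗ pr A B hAB := by
    intro g
    refine pr_comm hAB ?_ ?_
    · intro x hx
      rw [LR_apply, ← mul_assoc]
      exact hA g x hx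
    · intro x hx
      rw [LR_apply, ← mul_assoc]
      exact hB g x hx
  have hφ' : ∀ g u, pr A B hAB (ρ g * u * ρ g⁻¹) = ρ g * pr A B hAB u * ρ g⁻¹ := by
    intro g u
    have := LinearMap.congr_fun (hφ g) u
    rw [LinearMap.comp_apply, LinearMap.comp_apply, LR_apply, LR_apply] at this
    rw [mul_assoc, this, mul_assoc]
  have hpp : ∀ u, pr A B hAB (pr A B hAB u) = pr A B hAB u := fun u =>
    pr_of_mem hAB (pr_mem hAB u)
  -- the matrices
  let b := Module.finBasis k V
  let e : Module.End k V ≃ₐ[k] Matrix (Fin (Module.finrank k V)) (Fin (Module.finrank k V)) k :=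
    LinearMap.toMatrixAlgEquiv b
  have htr : ∀ u : Module.End k V, (e u).trace = LinearMap.trace k V u := by
    intro u
    rw [LinearMap.trace_eq_matrix_trace k b]
    rfl
  set x : J → Matrix (Fin (Module.finrank k V)) (Fin (Module.finrank k V)) k :=
    fun j => e (ρ (g j) - 1) with hx
  have hx1 : ∀ j, 1 + x j = e (ρ (g j)) := by
    intro j
    rw [hx]
    simp only [map_sub, map_one]
    abel
  have htwo : ∀ u : Module.End k V, u + u = 0 := by
    intro u
    rw [← two_smul k u, CharTwo.two_eq_zero, zero_smul]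
  have hxx : ∀ j, x j * x j = 0 := by
    intro j
    have : (ρ (g j) - 1) * (ρ (g j) - 1) = 0 := by
      have h1 : (ρ (g j) - 1) * (ρ (g j) - 1) = (1 - ρ (g j)) + (1 - ρ (g j)) := by
        rw [sub_mul, mul_sub, hgg j]
        simp only [mul_one, one_mul]
        abel
      rw [h1]
      exact htwo _
    rw [hx]
    simp only
    rw [← map_mul, this, map_zero]
  have hginv : ∀ j, ρ (g j)⁻¹ = ρ (g j) := by
    intro j
    calc ρ (g j)⁻¹ = ρ (g j)⁻¹ * (ρ (g j) * ρ (g j)) := by rw [hgg, mul_one]
      _ = ρ (g j) := by rw [← mul_assoc, rho_inv_mul, one_mul]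
  set Λ : Set (Matrix (Fin (Module.finrank k V)) (Fin (Module.finrank k V)) k) :=
    {a | ∀ g, a * e (ρ g) = e (ρ g) * a} with hΛ
  have hΛe : ∀ a : Module.End k V, (∀ g, a * ρ g = ρ g * a) → e a ∈ Λ := by
    intro a ha g
    rw [← map_mul, ha, map_mul]
  have hΛe' : ∀ a ∈ Λ, ∃ a' : Module.End k V, e a' = a ∧ ∀ g, a' * ρ g = ρ g * a' := by
    intro a ha
    obtain ⟨a', rfl⟩ := e.surjective a
    refine ⟨a', rfl, fun g => ?_⟩
    have := ha g
    rw [← map_mul, ← map_mul] at this
    exact e.injective this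
  have HΛ : Lam Λ x := by
    constructor
    · intro a ha c hc g
      rw [mul_assoc, hc, ← mul_assoc, ha, mul_assoc]
    · intro g
      rw [one_mul, mul_one]
    · intro j
      apply hΛe
      intro g'
      rw [sub_mul, mul_sub, hg j g', one_mul, mul_one]
    · intro a ha j
      obtain ⟨a', rfl, ha'⟩ := hΛe' a ha
      rw [hx]
      simp only
      rw [← map_mul, ← map_mul]
      congr 1
      rw [mul_sub, sub_mul, ha', mul_one, one_mul]
    · intro a ha
      obtain ⟨a', rfl, ha'⟩ := hΛe' a ha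
      obtain ⟨s, hs⟩ := hloc a' ha'
      refine ⟨s, ?_⟩
      have h1 : e a' - s • (1 : Matrix (Fin (Module.finrank k V)) (Fin (Module.finrank k V)) k)
          = e (a' - s • 1) := by
        rw [map_sub, map_smul, map_one]
      rw [h1]
      exact hs.map e
  -- the rank
  have hrank : (∑ j, c j • x j).rank
      = Module.finrank k (LinearMap.range (∑ j, c j • (ρ (g j) - 1))) := by
    have h1 : ∑ j, c j • x j = e (∑ j, c j • (ρ (g j) - 1)) := by
      rw [map_sum]
      exact Finset.sum_congr rfl fun j _ => by rw [map_smul]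
    have h2 : Matrix.toLin b b (e (∑ j, c j • (ρ (g j) - 1))) = ∑ j, c j • (ρ (g j) - 1) :=
      Matrix.toLin_toMatrix b b _
    rw [h1, Matrix.rank_eq_finrank_range_toLin _ b b, h2]
  set ψ : Matrix (Fin (Module.finrank k V)) (Fin (Module.finrank k V)) k →ₗ[k]
      Matrix (Fin (Module.finrank k V)) (Fin (Module.finrank k V)) k :=
    e.toLinearEquiv.conj (pr A B hAB) with hψ
  have hψe : ∀ u : Module.End k V, ψ (e u) = e (pr A B hAB u) := by
    intro u
    change e (pr A B hAB (e.symm (e u))) = _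
    rw [e.symm_apply_apply]
  have hconj : ∀ (T : Module.End k V →ₗ[k] Module.End k V)
      (T' : Matrix (Fin (Module.finrank k V)) (Fin (Module.finrank k V)) k →ₗ[k]
        Matrix (Fin (Module.finrank k V)) (Fin (Module.finrank k V)) k),
      (∀ w, T' (e w) = e (T w)) →
      LinearMap.trace k _ (ψ ∘ₗ T') = LinearMap.trace k _ (pr A B hAB ∘ₗ T) := by
    intro T T' h
    rw [← LinearMap.trace_conj' (pr A B hAB ∘ₗ T) e.toLinearEquiv]
    congr 1
    refine LinearMap.ext fun w => ?_
    obtain ⟨w, rfl⟩ := e.surjective w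
    rw [LinearMap.comp_apply, h, hψe, LinearEquiv.conj_apply_apply]
    have : e.toLinearEquiv.symm (e w) = w := e.symm_apply_apply w
    rw [this]
    rfl
  have Hψ : PTk Λ ψ := by
    constructor
    · intro v hv
      obtain ⟨v', rfl, hv'⟩ := hΛe' v hv
      obtain ⟨⟨a, ha, -, ha'⟩, -⟩ := kpv_of_localEnd (v := v') hloc hφ (by
        intro g'
        rw [← hv', mul_assoc, rho_mul_inv, mul_one])
      refine ⟨e a, hΛe a ha, fun u => ?_⟩
      obtain ⟨u, rfl⟩ := e.surjective u
      rw [← map_mul, htr, ← ha', br]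
      apply hconj
      intro w
      rw [LinearMap.comp_apply, LinearMap.mulRight_apply, LinearMap.mulLeft_apply, LR_apply,
        ← map_mul, ← map_mul, mul_assoc]
    · intro v hv
      obtain ⟨v', rfl, hv'⟩ := hΛe' v hv
      obtain ⟨-, ⟨a, ha, -, ha'⟩⟩ := kpv_of_localEnd (v := v') hloc hφ (by
        intro g'
        rw [← hv', mul_assoc, rho_mul_inv, mul_one])
      refine ⟨e a, hΛe a ha, fun u => ?_⟩
      obtain ⟨u, rfl⟩ := e.surjective u
      rw [← map_mul, htr, ← ha', br]
      apply hconj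
      intro w
      rw [LinearMap.comp_apply, LinearMap.mulRight_apply, LinearMap.mulLeft_apply, LR_apply,
        ← map_mul, ← map_mul]
  have hψψ : ψ ∘ₗ ψ = ψ := by
    refine LinearMap.ext fun w => ?_
    obtain ⟨w, rfl⟩ := e.surjective w
    rw [LinearMap.comp_apply, hψe, hψe, hpp]
  have hψx : ∀ j u, ψ ((1 + x j) * u * (1 + x j)) = (1 + x j) * ψ u * (1 + x j) := by
    intro j u
    obtain ⟨u, rfl⟩ := e.surjective u
    rw [hx1, ← map_mul, ← map_mul, hψe, hψe, ← map_mul, ← map_mul]
    congr 1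
    have := hφ' (g j) u
    rwa [hginv] at this
  have h1 : ∀ g', pr A B hAB 1 * ρ g' = ρ g' * pr A B hAB 1 :=
    (scalar_zero_or_one hodd hloc hφ' hpp).1
  have key := four_dvd_k x hxx c (by rw [hrank, hc, Fintype.card_fin]) HΛ ψ Hψ hψψ hψx
    (hΛe _ h1) (hnil.map e) (by rw [← map_one e, hψe])
  have hfin : Module.finrank k (LinearMap.range ψ) = Module.finrank k A := by
    have h2 : LinearMap.range ψ = A.map e.toLinearEquiv.toLinearMap := by
      ext w
      constructor
      · rintro ⟨w, rfl⟩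
        obtain ⟨w, rfl⟩ := e.surjective w
        rw [hψe]
        exact ⟨_, pr_mem hAB w, rfl⟩
      · rintro ⟨w, hw, rfl⟩
        refine ⟨e w, ?_⟩
        rw [hψe, pr_of_mem hAB hw]
        rfl
    rw [h2, LinearEquiv.finrank_map_eq]
  rwa [hfin] at key

/-- The theorem for `End V`. -/
theorem good4_generic [IsAlgClosed k] [CharP k 2] [FiniteDimensional k V]
    {ρ : Representation k G V} (hodd : Odd (Module.finrank k V)) (hind : Indec ρ)
    {J : Type} [Fintype J] (g : J → G) (hg : ∀ j, g j ∈ Cen ρ)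
    (hgg : ∀ j, ρ (g j) * ρ (g j) = 1) (c : J → k)
    (hc : 2 * Module.finrank k (LinearMap.range (∑ j, c j • (ρ (g j) - 1))) + 1
      = Module.finrank k V) : Good4 ρ := by
  classical
  intro A B hA hB hAB
  have hloc := localEnd_of_indec hodd hind
  have hφ' : ∀ g u, pr A B hAB (ρ g * u * ρ g⁻¹) = ρ g * pr A B hAB u * ρ g⁻¹ := by
    intro g' u
    have h1 := pr_comm hAB (T := LR (ρ g') (ρ g'⁻¹))
      (by intro x hx; rw [LR_apply, ← mul_assoc]; exact hA g' x hx)
      (by intro x hx; rw [LR_apply, ← mul_assoc]; exact hB g' x hx)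
    have := LinearMap.congr_fun h1 u
    rw [LinearMap.comp_apply, LinearMap.comp_apply, LR_apply, LR_apply] at this
    rw [mul_assoc, this, mul_assoc]
  have hpp : ∀ u, pr A B hAB (pr A B hAB u) = pr A B hAB u := fun u =>
    pr_of_mem hAB (pr_mem hAB u)
  rcases (scalar_zero_or_one hodd hloc hφ' hpp).2 with h | h
  · left
    exact Nat.mod_eq_zero_of_dvd
      (four_dvd_pr hodd hind g hg hgg c hc hA hB hAB h)
  · right
    have h1 : pr B A hAB.symm 1 = 1 - pr A B hAB 1 := by
      obtain ⟨a, ha, b, hb, hab⟩ : ∃ a ∈ A, ∃ b ∈ B, a + b = (1 : Module.End k V) := by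
        have : (1 : Module.End k V) ∈ A ⊔ B := by rw [hAB.sup_eq_top]; trivial
        exact Submodule.mem_sup.1 this
      rw [← hab, map_add, map_add, pr_of_mem hAB ha, pr_of_mem_right hAB hb,
        pr_of_mem hAB.symm hb, pr_of_mem_right hAB.symm ha]
      abel
    have h2 : IsNilpotent (pr B A hAB.symm 1) := by
      rw [h1, ← neg_sub]
      exact h.neg
    have h3 := four_dvd_pr hodd hind g hg hgg c hc hB hA hAB.symm h2
    have h4 := Submodule.finrank_add_eq_of_isCompl hAB
    rw [Module.finrank_linearMap] at h4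
    obtain ⟨m, hm⟩ := hodd
    have h5 : Module.finrank k V * Module.finrank k V = 4 * (m * m + m) + 1 := by
      rw [hm]
      ring
    rw [h5] at h4
    omega

end bridge

end H77GJ
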