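import Pool.Agent.Helper77.GJ.KDefs

/-!
# MP_8096dd_al : generic Jordan type, extension of scalars for maps between matrices
-/

namespace H77GJ

open Matrix Module

variable {k K n : Type} [Field k] [Field K] [Algebra k K] [Fintype n] [DecidableEq n]

theorem cst_single (i j : n) (a : k) :
    cst K (Matrix.single i j a) = Matrix.single i j (algebraMap k K a) := by
  rw [cst, Matrix.map_single]

theorem cst_add (a b : Matrix n n k) : cst K (a + b) = cst K a + cst K b := by
  ext i j
  simp [cst]

theorem cst_smul (c : k) (a : Matrix n n k) : cst K (c • a) = algebraMap k K c • cst K a := by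
  ext i j
  simp [cst]

theorem cst_zero : cst K (0 : Matrix n n k) = 0 := by simp [cst]

theorem cst_sum {ι : Type} (s : Finset ι) (a : ι → Matrix n n k) :
    cst K (∑ i ∈ s, a i) = ∑ i ∈ s, cst K (a i) := by
  classical
  induction s using Finset.induction_on with
  | empty => rw [Finset.sum_empty, Finset.sum_empty, cst_zero]
  | insert i s his ih => rw [Finset.sum_insert his, Finset.sum_insert his, cst_add, ih]

theorem cst_trace (a : Matrix n n k) : (cst K a).trace = algebraMap k K a.trace := by
  rw [Matrix.trace, Matrix.trace, map_sum]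
  rfl

/-- Two linear maps which agree on constant matrices are equal. -/
theorem ext_cst {M : Type} [AddCommGroup M] [Module K M] {f g : Matrix n n K →ₗ[K] M}
    (h : ∀ u : Matrix n n k, f (cst K u) = g (cst K u)) : f = g := by
  refine (Matrix.stdBasis K n n).ext fun p => ?_
  rw [Matrix.stdBasis_eq_single]
  have := h (Matrix.single p.1 p.2 1)
  rwa [cst_single, map_one] at this

/-- Extension of scalars. -/
noncomputable def extK (K : Type) [Field K] [Algebra k K] (ψ : Matrix n n k →ₗ[k] Matrix n n k) :
    Module.End K (Matrix n n K) :=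
  (Matrix.stdBasis K n n).constr K fun p => cst K (ψ (Matrix.single p.1 p.2 1))

theorem extK_single (ψ : Matrix n n k →ₗ[k] Matrix n n k) (i j : n) :
    extK K ψ (Matrix.single i j 1) = cst K (ψ (Matrix.single i j 1)) := by
  have := (Matrix.stdBasis K n n).constr_basis K
    (fun p : n × n => cst K (ψ (Matrix.single p.1 p.2 1))) (i, j)
  rwa [Matrix.stdBasis_eq_single] at this

theorem eq_sum (u : Matrix n n k) : u = ∑ i, ∑ j, u i j • Matrix.single i j (1 : k) := by
  conv_lhs => rw [Matrix.matrix_eq_sum_single u]
  refine Finset.sum_congr rfl fun i _ => Finset.sum_congr rfl fun j _ => ?_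
  rw [Matrix.smul_single, smul_eq_mul, mul_one]

theorem extK_cst (ψ : Matrix n n k →ₗ[k] Matrix n n k) (u : Matrix n n k) :
    extK K ψ (cst K u) = cst K (ψ u) := by
  conv_lhs => rw [eq_sum u]
  conv_rhs => rw [eq_sum u]
  simp only [map_sum, cst_sum, cst_smul, map_smul]
  refine Finset.sum_congr rfl fun i _ => Finset.sum_congr rfl fun j _ => ?_
  rw [cst_single, map_one, extK_single]

theorem extK_comp (ψ χ : Matrix n n k →ₗ[k] Matrix n n k) :
    extK K (ψ ∘ₗ χ) = extK K ψ * extK K χ := by
  apply ext_cst (k := k)
  intro u
  rw [extK_cst, Module.End.mul_apply, extK_cst, extK_cst]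
  rfl

theorem trace_extK (ψ : Matrix n n k →ₗ[k] Matrix n n k) :
    LinearMap.trace K _ (extK K ψ) = algebraMap k K (LinearMap.trace k _ ψ) := by
  rw [LinearMap.trace_eq_matrix_trace K (Matrix.stdBasis K n n),
    LinearMap.trace_eq_matrix_trace k (Matrix.stdBasis k n n), Matrix.trace, Matrix.trace, map_sum]
  refine Finset.sum_congr rfl fun p _ => ?_
  rw [Matrix.diag_apply, Matrix.diag_apply, LinearMap.toMatrix_apply, LinearMap.toMatrix_apply,
    Matrix.stdBasis_eq_single, Matrix.stdBasis_eq_single, extK_single]
  have hr : ∀ (F : Type) [Field F] (a : Matrix n n F) (q : n × n),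
      (Matrix.stdBasis F n n).repr a q = a q.1 q.2 := by
    intro F _ a q
    obtain ⟨i, j⟩ := q
    have h1 : a = ∑ i, ∑ j, a i j • Matrix.single i j (1 : F) := eq_sum a
    conv_lhs => rw [h1]
    simp only [map_sum, map_smul, Finsupp.coe_finset_sum, Finset.sum_apply, Finsupp.smul_apply]
    rw [Finset.sum_eq_single i, Finset.sum_eq_single j]
    · rw [← Matrix.stdBasis_eq_single, Basis.repr_self, Finsupp.single_eq_same, smul_eq_mul, mul_one]
    · intro l _ hl
      rw [← Matrix.stdBasis_eq_single, Basis.repr_self, Finsupp.single_eq_of_ne, smul_zero]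
      simp [hl.symm, hl]
    · intro h
      exact absurd (Finset.mem_univ _) h
    · intro l _ hl
      refine Finset.sum_eq_zero fun m _ => ?_
      rw [← Matrix.stdBasis_eq_single, Basis.repr_self, Finsupp.single_eq_of_ne, smul_zero]
      simp [hl.symm, hl]
    · intro h
      exact absurd (Finset.mem_univ _) h
  rw [hr, hr]
  rfl

/-- Extension of scalars preserves the rank. -/
theorem finrank_extK (ψ : Matrix n n k →ₗ[k] Matrix n n k) :
    Module.finrank K (LinearMap.range (extK K ψ)) = Module.finrank k (LinearMap.range ψ) := by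
  set d := Module.finrank k (LinearMap.range ψ) with hd
  let b := Module.finBasis k (LinearMap.range ψ)
  let a : Fin d → Matrix n n k := fun i => (b i : Matrix n n k)
  have ha : LinearIndependent k a :=
    b.linearIndependent.map' (LinearMap.range ψ).subtype (Submodule.ker_subtype _)
  -- linear independence over `K`
  let flat : ∀ (F : Type) [Field F], (Matrix n n F) ≃ₗ[F] (n × n → F) := fun F _ =>
    { toFun := fun u p => u p.1 p.2
      invFun := fun v => Matrix.of fun i j => v (i, j)
      map_add' := fun _ _ => rfl
      map_smul' := fun _ _ => rfl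
      left_inv := fun _ => rfl
      right_inv := fun _ => rfl }
  have h1 : LinearIndependent k (fun i => flat k (a i)) :=
    ha.map' (flat k).toLinearMap (flat k).ker
  have h2 : LinearIndependent K (fun i => (algebraMap k K) ∘ (flat k (a i))) :=
    linearIndependent_algebraMap_comp_iff.2 h1
  have h3 : LinearIndependent K (fun i => (flat K).symm ((algebraMap k K) ∘ (flat k (a i)))) :=
    h2.map' (flat K).symm.toLinearMap (flat K).symm.ker
  have h4 : (fun i => (flat K).symm ((algebraMap k K) ∘ (flat k (a i)))) = fun i => cst K (a i) := by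
    funext i
    rfl
  rw [h4] at h3
  have h5 : LinearMap.range (extK K ψ) = Submodule.span K (Set.range fun i => cst K (a i)) := by
    apply le_antisymm
    · rintro _ ⟨w, rfl⟩
      rw [eq_sum w]
      simp only [map_sum, map_smul]
      refine Submodule.sum_mem _ fun i _ => Submodule.sum_mem _ fun j _ =>
        Submodule.smul_mem _ _ ?_
      rw [extK_single]
      have h6 : ψ (Matrix.single i j 1) = ∑ l, b.repr ⟨ψ (Matrix.single i j 1), ⟨_, rfl⟩⟩ l • a l := by
        have h7 := b.sum_repr ⟨ψ (Matrix.single i j 1), ⟨_, rfl⟩⟩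
        have h8 := congrArg (LinearMap.range ψ).subtype h7
        simp only [map_sum, map_smul] at h8
        exact h8.symm
      rw [h6, cst_sum]
      refine Submodule.sum_mem _ fun l _ => ?_
      rw [cst_smul]
      exact Submodule.smul_mem _ _ (Submodule.subset_span ⟨l, rfl⟩)
    · rw [Submodule.span_le]
      rintro _ ⟨i, rfl⟩
      obtain ⟨u, hu⟩ := (b i).2
      refine ⟨cst K u, ?_⟩
      rw [extK_cst, hu]
  rw [h5, finrank_span_eq_card h3, Fintype.card_fin]

end H77GJ
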