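import Mathlib

/-!
# MP_8096dd_al : generic Jordan type, factorisation of a matrix over a PID  (BLOCK GJ-F)

Every square matrix over a principal ideal domain is `U P W` with `U` split injective, `W` split
surjective and `P` a square matrix of non-zero determinant.

Proof. Let `f = toLin' X` (or `mulVecLin`), `N = range f`, a submodule of `n → O`. Use
`Submodule.smithNormalForm (Pi.basisFun O n) N`: it gives `ρ`, a basis `bM` of `n → O`, a basis `bN` of
`N` indexed by `Fin ρ`, an embedding `g : Fin ρ ↪ n` and `d : Fin ρ → O` with `bN i = d i • bM (g i)`.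
Take `U` = the matrix with columns `bM (g i)`, `P = diagonal d` (`d i ≠ 0` since `bN i ≠ 0`), `W` = the
matrix of `v ↦ bN.repr (f v)`, `s` = the matrix of a right inverse (choose `s i` with `f (s i) = bN i`),
`r` = the matrix of `v ↦ (bM.repr v (g i))`.
-/

namespace H77GJ

open Matrix

theorem h94_lin {O : Type} [CommRing O] {n : Type} [Fintype n] [DecidableEq n]
    (φ : (n → O) →ₗ[O] O) (v : n → O) : ∑ a, φ (Pi.single a 1) * v a = φ v := by
  conv_rhs => rw [← (Pi.basisFun O n).sum_repr v]
  simp [map_sum, mul_comm]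

theorem exists_fac {O : Type} [CommRing O] [IsDomain O] [IsPrincipalIdealRing O]
    {n : Type} [Fintype n] [DecidableEq n] (X : Matrix n n O) :
    ∃ (ρ : ℕ) (U : Matrix n (Fin ρ) O) (P : Matrix (Fin ρ) (Fin ρ) O) (W : Matrix (Fin ρ) n O)
      (r : Matrix (Fin ρ) n O) (s : Matrix n (Fin ρ) O),
      X = U * P * W ∧ r * U = 1 ∧ W * s = 1 ∧ P.det ≠ 0 := by
  classical
  let f : (n → O) →ₗ[O] (n → O) := X.mulVecLin
  obtain ⟨ρ, ⟨bM, bN, g, d, snf⟩⟩ :=
    Submodule.smithNormalForm (Pi.basisFun O n) (LinearMap.range f)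
  let fr : (n → O) →ₗ[O] LinearMap.range f := f.rangeRestrict
  have hs : ∀ i, ∃ v : n → O, f v = (bN i : n → O) := fun i => (bN i).2
  choose sv hsv using hs
  refine ⟨ρ, fun a i => bM (g i) a, diagonal d, fun i a => bN.repr (fr (Pi.single a 1)) i,
    fun i a => bM.repr (Pi.single a 1) (g i), fun a i => sv i a, ?_, ?_, ?_, ?_⟩
  · ext b a
    have h1 : (f (Pi.single a 1) : n → O) = ∑ i, bN.repr (fr (Pi.single a 1)) i • (bN i : n → O) := by
      have h2 := bN.sum_repr (fr (Pi.single a 1))
      have h3 := congrArg (Subtype.val) h2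
      rw [← Submodule.coe_subtype, map_sum] at h3
      simp only [map_smul, Submodule.coe_subtype] at h3
      rw [h3]
      rfl
    have h4 : (f (Pi.single a 1) : n → O) b = X b a := by
      simp [f]
    rw [← h4, h1, Finset.sum_apply, Matrix.mul_apply]
    refine Finset.sum_congr rfl fun i _ => ?_
    rw [Matrix.mul_diagonal, snf i]
    simp only [Pi.smul_apply, smul_eq_mul]
    ring
  · ext i j
    rw [Matrix.mul_apply]
    have h1 := h94_lin ((Finsupp.lapply (g i)).comp bM.repr.toLinearMap) (bM (g j))
    simp only [LinearMap.comp_apply, Finsupp.lapply_apply, LinearEquiv.coe_coe] at h1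
    rw [h1, Module.Basis.repr_self, Finsupp.single_apply, Matrix.one_apply]
    simp [g.injective.eq_iff, eq_comm]
  · ext i j
    rw [Matrix.mul_apply]
    have h1 := h94_lin ((Finsupp.lapply i).comp (bN.repr.toLinearMap.comp fr)) (sv j)
    simp only [LinearMap.comp_apply, Finsupp.lapply_apply, LinearEquiv.coe_coe] at h1
    rw [h1]
    have h2 : fr (sv j) = bN j := Subtype.ext (hsv j)
    rw [h2, Module.Basis.repr_self, Finsupp.single_apply, Matrix.one_apply]
    simp [eq_comm]
  · rw [Matrix.det_diagonal, Finset.prod_ne_zero_iff]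
    intro i _ h0
    have h1 := snf i
    rw [h0, zero_smul] at h1
    exact bN.ne_zero i (Subtype.ext h1)

end H77GJ
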