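import Pool.Agent.Helper77.GJ.Bridge

/-!
# MP_8096dd_al : generic Jordan type, the conclusion
-/

namespace H77GJ

open Module H77CI

variable {k V : Type} [Field k] [AddCommGroup V] [Module k V] {G : Type} [Group G]

/-- The linear combination of the `g j - 1` with coefficients `c j`, acting on `V`. -/
noncomputable def comb (ρ : Representation k G V) {J : Type} [Fintype J] (g : J → G) (c : J → k) :
    V →ₗ[k] V := ∑ j, c j • zOne ρ (g j)

theorem decomposes_of_generic [IsAlgClosed k] [CharP k 2] [FiniteDimensional k V]
    (ρ : Representation k G V) (hodd : Odd (Module.finrank k V)) (hind : Indec ρ)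
    {J : Type} [Fintype J] (g : J → G) (hg : ∀ j, g j ∈ Cen ρ)
    (hgg : ∀ j, ρ (g j) * ρ (g j) = 1) (c : J → k)
    (hc : 2 * Module.finrank k (LinearMap.range (comb ρ g c)) + 1 = Module.finrank k V) :
    TrivPlusFour (tw ρ) :=
  conclusion hodd (good4_generic hodd hind g hg hgg c hc)

end H77GJ
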