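import Mathlib

/-!
# MP_8096dd_al : generic Jordan type, the rational function field  (BLOCK GJ-K)

`K = FractionRing (MvPolynomial J k)`, `lam j` the variables.
* `θ j` is the derivation `lam_j d/d lam_j`. Construction: the ring homomorphism
  `MvPolynomial J k → DualNumber K` (or `TrivSqZeroExt K K`), `lam_i ↦ lam_i + (if i = j then lam_i ε else 0)`,
  composed on constants with `inl`; its first component is the inclusion, so non-zero polynomials map
  to units, and it extends to `K` by `IsLocalization.lift`; `θ j` is the second component. (Or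
  define it on fractions by the quotient rule from `MvPolynomial.pderiv`.)
* `σ j : K →+* RatFunc K` sends `lam_j` to `RatFunc.X` and the other `lam_i` to `RatFunc.C lam_i`:
  the homomorphism `MvPolynomial J k → RatFunc K` is injective (it factors through `Polynomial K`, and
  evaluating the variable at `lam_j` gives back the inclusion in `K`), and extends to `K` by
  `IsFractionRing.lift`.
-/

namespace H77GJ

namespace GField

variable (k : Type) [Field k] (J : Type) [Fintype J] [DecidableEq J]

/-- The rational function field. -/
abbrev KK : Type := FractionRing (MvPolynomial J k)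

/-- The variables. -/
noncomputable def lam (i : J) : KK k J := algebraMap (MvPolynomial J k) (KK k J) (MvPolynomial.X i)

theorem aeval_lam (p : MvPolynomial J k) :
    MvPolynomial.aeval (lam k J) p = algebraMap (MvPolynomial J k) (KK k J) p := by
  have h : (MvPolynomial.aeval (lam k J) : MvPolynomial J k →ₐ[k] KK k J) =
      IsScalarTower.toAlgHom k (MvPolynomial J k) (KK k J) := by
    apply MvPolynomial.algHom_ext
    intro i
    simp [lam]
  rw [h]
  rfl

/-- The homomorphism to the dual numbers. -/
noncomputable def phi (j : J) : MvPolynomial J k →ₐ[k] TrivSqZeroExt (KK k J) (KK k J) :=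
  MvPolynomial.aeval (fun i => TrivSqZeroExt.inl (lam k J i) +
    TrivSqZeroExt.inr (if i = j then lam k J i else 0))

theorem fst_phi (j : J) (p : MvPolynomial J k) :
    (phi k J j p).fst = algebraMap (MvPolynomial J k) (KK k J) p := by
  rw [← aeval_lam]
  have h : (TrivSqZeroExt.fstHom k (KK k J) (KK k J)).comp (phi k J j) =
      MvPolynomial.aeval (lam k J) := by
    apply MvPolynomial.algHom_ext
    intro i
    simp only [phi, AlgHom.comp_apply, MvPolynomial.aeval_X]
    show (TrivSqZeroExt.inl (lam k J i) + TrivSqZeroExt.inr (if i = j then lam k J i else 0) :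
      TrivSqZeroExt (KK k J) (KK k J)).fst = lam k J i
    rw [TrivSqZeroExt.fst_add, TrivSqZeroExt.fst_inl, TrivSqZeroExt.fst_inr, add_zero]
  exact DFunLike.congr_fun h p

theorem unit_phi (j : J) (p : nonZeroDivisors (MvPolynomial J k)) :
    IsUnit ((phi k J j).toRingHom p) := by
  rw [TrivSqZeroExt.isUnit_iff_isUnit_fst]
  have h : ((phi k J j).toRingHom p).fst = algebraMap (MvPolynomial J k) (KK k J) p :=
    fst_phi k J j p
  rw [h]
  exact IsLocalization.map_units (KK k J) p

/-- Its extension to the fraction field. -/
noncomputable def psi (j : J) : KK k J →+* TrivSqZeroExt (KK k J) (KK k J) :=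
  IsLocalization.lift (M := nonZeroDivisors (MvPolynomial J k)) (unit_phi k J j)

theorem psi_alg (j : J) (p : MvPolynomial J k) :
    psi k J j (algebraMap (MvPolynomial J k) (KK k J) p) = phi k J j p := by
  unfold psi
  rw [IsLocalization.lift_eq]
  rfl

theorem fst_psi (j : J) (x : KK k J) : (psi k J j x).fst = x := by
  have h : ((TrivSqZeroExt.fstHom k (KK k J) (KK k J)).toRingHom.comp (psi k J j)) =
      RingHom.id (KK k J) := by
    apply IsLocalization.ringHom_ext (nonZeroDivisors (MvPolynomial J k))
    apply RingHom.ext
    intro p
    show (psi k J j (algebraMap (MvPolynomial J k) (KK k J) p)).fst =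
      algebraMap (MvPolynomial J k) (KK k J) p
    rw [psi_alg, fst_phi]
  exact DFunLike.congr_fun h x

/-- The derivation. -/
noncomputable def theta (j : J) : KK k J →+ KK k J where
  toFun x := (psi k J j x).snd
  map_zero' := by simp
  map_add' x y := by simp

theorem theta_mul (j : J) (a b : KK k J) :
    theta k J j (a * b) = theta k J j a * b + a * theta k J j b := by
  show (psi k J j (a * b)).snd = _
  rw [map_mul, TrivSqZeroExt.snd_mul, fst_psi, fst_psi]
  simp only [smul_eq_mul, MulOpposite.smul_eq_mul_unop, MulOpposite.unop_op]
  show a * (psi k J j b).snd + (psi k J j a).snd * b = (psi k J j a).snd * b + a * (psi k J j b).snd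
  ring

theorem theta_C (j : J) (c : k) : theta k J j (algebraMap k (KK k J) c) = 0 := by
  show (psi k J j (algebraMap k (KK k J) c)).snd = 0
  rw [IsScalarTower.algebraMap_apply k (MvPolynomial J k) (KK k J), psi_alg]
  rw [AlgHom.commutes]
  rfl

theorem theta_lam (i j : J) : theta k J j (lam k J i) = if i = j then lam k J i else 0 := by
  show (psi k J j (lam k J i)).snd = _
  unfold lam
  rw [psi_alg]
  simp only [phi, MvPolynomial.aeval_X]
  show (TrivSqZeroExt.inl (lam k J i) + TrivSqZeroExt.inr (if i = j then lam k J i else 0) :
    TrivSqZeroExt (KK k J) (KK k J)).snd = if i = j then lam k J i else 0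
  rw [TrivSqZeroExt.snd_add, TrivSqZeroExt.snd_inl, TrivSqZeroExt.snd_inr, zero_add]

/-- One variable singled out, polynomial version. -/
noncomputable def qq (j : J) : MvPolynomial J k →+* Polynomial (KK k J) :=
  MvPolynomial.eval₂Hom (Polynomial.C.comp (algebraMap k (KK k J)))
    (fun i => if i = j then Polynomial.X else Polynomial.C (lam k J i))

theorem qq_inj (j : J) : Function.Injective (qq k J j) := by
  have h : (Polynomial.evalRingHom (lam k J j)).comp (qq k J j) =
      algebraMap (MvPolynomial J k) (KK k J) := by
    apply MvPolynomial.ringHom_ext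
    · intro c
      simp only [qq, RingHom.comp_apply, MvPolynomial.coe_eval₂Hom, MvPolynomial.eval₂_C,
        Polynomial.coe_evalRingHom, Polynomial.eval_C]
      rw [IsScalarTower.algebraMap_apply k (MvPolynomial J k) (KK k J)]
      rfl
    · intro i
      by_cases hij : i = j
      · subst hij
        simp [qq, lam]
      · simp [qq, lam, hij]
  have h2 : Function.Injective ((Polynomial.evalRingHom (lam k J j)).comp (qq k J j)) := by
    rw [h]
    exact IsFractionRing.injective (MvPolynomial J k) (KK k J)
  exact Function.Injective.of_comp (f := Polynomial.evalRingHom (lam k J j)) (by simpa using h2)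

theorem rr_inj (j : J) : Function.Injective
    ((algebraMap (Polynomial (KK k J)) (RatFunc (KK k J))).comp (qq k J j)) := by
  rw [RingHom.coe_comp]
  exact (IsFractionRing.injective (Polynomial (KK k J)) (RatFunc (KK k J))).comp (qq_inj k J j)

/-- The embedding in the rational functions. -/
noncomputable def sig (j : J) : KK k J →+* RatFunc (KK k J) :=
  IsFractionRing.lift (rr_inj k J j)

theorem sig_alg (j : J) (p : MvPolynomial J k) :
    sig k J j (algebraMap (MvPolynomial J k) (KK k J) p) =
      algebraMap (Polynomial (KK k J)) (RatFunc (KK k J)) (qq k J j p) := by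
  unfold sig
  rw [IsFractionRing.lift_algebraMap]
  rfl

theorem sig_C (j : J) (c : k) :
    sig k J j (algebraMap k (KK k J) c) = RatFunc.C (algebraMap k (KK k J) c) := by
  rw [IsScalarTower.algebraMap_apply k (MvPolynomial J k) (KK k J), sig_alg]
  have h : qq k J j (algebraMap k (MvPolynomial J k) c) =
      Polynomial.C (algebraMap k (KK k J) c) := by
    simp [qq, MvPolynomial.algebraMap_eq]
  rw [h, RatFunc.algebraMap_C, ← IsScalarTower.algebraMap_apply k (MvPolynomial J k) (KK k J)]

theorem sig_lam (i j : J) :
    sig k J j (lam k J i) = if i = j then RatFunc.X else RatFunc.C (lam k J i) := by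
  unfold lam
  rw [sig_alg]
  by_cases hij : i = j
  · subst hij
    simp [qq]
  · simp [qq, hij, lam]

end GField

open GField in
theorem exists_gfield (k : Type) [Field k] (J : Type) [Fintype J] [DecidableEq J] :
    ∃ (K : Type) (_ : Field K) (_ : Algebra k K) (lam : J → K) (θ : J → K →+ K)
      (σ : J → K →+* RatFunc K),
      (∀ j a b, θ j (a * b) = θ j a * b + a * θ j b) ∧
      (∀ j (c : k), θ j (algebraMap k K c) = 0) ∧
      (∀ i j, θ j (lam i) = if i = j then lam i else 0) ∧
      (∀ j (c : k), σ j (algebraMap k K c) = RatFunc.C (algebraMap k K c)) ∧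
      (∀ i j, σ j (lam i) = if i = j then RatFunc.X else RatFunc.C (lam i)) ∧
      (∀ p : MvPolynomial J k, p ≠ 0 → MvPolynomial.aeval lam p ≠ 0) := by
  refine ⟨KK k J, inferInstance, inferInstance, lam k J, theta k J, sig k J, theta_mul k J,
    theta_C k J, theta_lam k J, sig_C k J, sig_lam k J, fun p hp => ?_⟩
  rw [aeval_lam]
  exact (map_ne_zero_iff _ (IsFractionRing.injective (MvPolynomial J k) (KK k J))).2 hp

end H77GJ
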