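import Mathlib

/-!
# MP_8096dd_al : generic Jordan type, ranks and specialisation  (BLOCK GJ-S)

If `∑ c_j x_j` (matrices over `k`) has rank `ρ` and the `lam_j` in `K` are algebraically independent
over `k`, then `∑ lam_j x_j` has rank at least `ρ`.

Proof. There are matrices `A : Fin ρ × n`, `B : n × Fin ρ` over `k` with `A (∑ c_j x_j) B` invertible
(for example `A (∑ c_j x_j) B = 1`: choose vectors `B i` whose images form a basis of the range, and `A`
a left inverse of the resulting injective map). The determinant of `A (∑ t_j x_j) B` over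
`MvPolynomial J k` is a polynomial whose value at `c` is not zero, so it is not zero, and its value at
`lam` is not zero. Hence `A (∑ lam_j x_j) B` is invertible and the rank is at least `ρ`
(`Matrix.rank_mul_le_left`, `Matrix.rank_mul_le_right`, `Matrix.rank_of_isUnit`).
-/

namespace H77GJ

open Matrix

theorem exists_mul_mul_eq_one {k n : Type} [Field k] [Fintype n] [DecidableEq n]
    (M : Matrix n n k) :
    ∃ (A : Matrix (Fin M.rank) n k) (B : Matrix n (Fin M.rank) k), A * M * B = 1 := by
  classical
  set f : (n → k) →ₗ[k] (n → k) := Matrix.toLin' M with hf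
  have hrank : Module.finrank k (LinearMap.range f) = M.rank := by
    rw [hf, Matrix.rank]; rfl
  let b : Module.Basis (Fin M.rank) k (LinearMap.range f) :=
    (Module.finBasis k (LinearMap.range f)).reindex (finCongr hrank)
  let e : LinearMap.range f ≃ₗ[k] (Fin M.rank → k) := b.equivFun
  obtain ⟨g, hg⟩ := f.rangeRestrict.exists_rightInverse_of_surjective (f.range_rangeRestrict)
  obtain ⟨h, hh⟩ := LinearMap.exists_leftInverse_of_injective (LinearMap.range f).subtype
    (LinearMap.ker_eq_bot.2 Subtype.val_injective)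
  refine ⟨LinearMap.toMatrix' (e.toLinearMap ∘ₗ h), LinearMap.toMatrix' (g ∘ₗ e.symm.toLinearMap),
    ?_⟩
  have hM : LinearMap.toMatrix' f = M := by rw [hf, LinearMap.toMatrix'_toLin']
  have key : LinearMap.toMatrix' (e.toLinearMap ∘ₗ h) * LinearMap.toMatrix' f *
      LinearMap.toMatrix' (g ∘ₗ e.symm.toLinearMap) = 1 := by
    rw [← LinearMap.toMatrix'_comp, ← LinearMap.toMatrix'_comp, ← LinearMap.toMatrix'_id]
    congr 1
    apply LinearMap.ext
    intro v
    have h1 : f (g (e.symm v)) = (e.symm v : n → k) := by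
      have := LinearMap.congr_fun hg (e.symm v)
      exact congrArg Subtype.val this
    have h2 : h ((e.symm v : LinearMap.range f) : n → k) = e.symm v :=
      LinearMap.congr_fun hh (e.symm v)
    simp only [LinearMap.comp_apply, LinearEquiv.coe_coe, LinearMap.id_apply]
    rw [h1, h2, LinearEquiv.apply_symm_apply]
  rw [hM] at key
  exact key

theorem rank_generic {k K J n : Type} [Field k] [Field K] [Algebra k K] [Fintype J]
    [DecidableEq J] [Fintype n] [DecidableEq n] (lam : J → K)
    (hlam : ∀ p : MvPolynomial J k, p ≠ 0 → MvPolynomial.aeval lam p ≠ 0)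
    (x : J → Matrix n n k) (c : J → k) :
    (∑ j, c j • x j).rank ≤ (∑ j, lam j • (x j).map (algebraMap k K)).rank := by
  classical
  obtain ⟨ρ, hρ, A, B, hAB⟩ : ∃ ρ : ℕ, (∑ j, c j • x j).rank = ρ ∧
      ∃ (A : Matrix (Fin ρ) n k) (B : Matrix n (Fin ρ) k), A * (∑ j, c j • x j) * B = 1 :=
    ⟨_, rfl, exists_mul_mul_eq_one _⟩
  rw [hρ]
  -- the generic matrix
  let X : Matrix n n (MvPolynomial J k) :=
    ∑ j, (MvPolynomial.X j : MvPolynomial J k) • (x j).map (MvPolynomial.C)
  let A' : Matrix (Fin ρ) n (MvPolynomial J k) := A.map MvPolynomial.C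
  let B' : Matrix n (Fin ρ) (MvPolynomial J k) := B.map MvPolynomial.C
  let p : MvPolynomial J k := (A' * X * B').det
  have hCA : A'.map (MvPolynomial.eval c) = A := by ext i j; simp [A']
  have hCB : B'.map (MvPolynomial.eval c) = B := by ext i j; simp [B']
  have hLA : A'.map (MvPolynomial.aeval lam) = A.map (algebraMap k K) := by ext i j; simp [A']
  have hLB : B'.map (MvPolynomial.aeval lam) = B.map (algebraMap k K) := by ext i j; simp [B']
  have hXc : X.map (MvPolynomial.eval c) = ∑ j, c j • x j := by
    ext i j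
    simp [X, Matrix.sum_apply]
  have hXl : X.map (MvPolynomial.aeval lam) = ∑ j, lam j • (x j).map (algebraMap k K) := by
    ext i j
    simp [X, Matrix.sum_apply]
  have hpc : MvPolynomial.eval c p = 1 := by
    have h0 : MvPolynomial.eval c p = ((A' * X * B').map (MvPolynomial.eval c)).det := by
      rw [← RingHom.mapMatrix_apply, ← RingHom.map_det]
    rw [h0, Matrix.map_mul, Matrix.map_mul, hCA, hCB, hXc, hAB, Matrix.det_one]
  have hp : p ≠ 0 := by
    intro h
    rw [h, map_zero] at hpc
    exact zero_ne_one hpc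
  have hpl := hlam p hp
  have h1 : MvPolynomial.aeval lam p = (A.map (algebraMap k K) *
      (∑ j, lam j • (x j).map (algebraMap k K)) * B.map (algebraMap k K)).det := by
    have h0 : MvPolynomial.aeval lam p = ((A' * X * B').map (MvPolynomial.aeval lam)).det := by
      rw [← AlgHom.mapMatrix_apply, ← AlgHom.map_det]
    rw [h0, Matrix.map_mul, Matrix.map_mul, hLA, hLB, hXl]
  rw [h1] at hpl
  have hunit : IsUnit (A.map (algebraMap k K) *
      (∑ j, lam j • (x j).map (algebraMap k K)) * B.map (algebraMap k K)) := by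
    rw [Matrix.isUnit_iff_isUnit_det]
    exact isUnit_iff_ne_zero.2 hpl
  have h2 := Matrix.rank_of_isUnit _ hunit
  rw [Fintype.card_fin] at h2
  calc ρ = (A.map (algebraMap k K) *
      (∑ j, lam j • (x j).map (algebraMap k K)) * B.map (algebraMap k K)).rank := h2.symm
    _ ≤ (A.map (algebraMap k K) * (∑ j, lam j • (x j).map (algebraMap k K))).rank :=
        Matrix.rank_mul_le_left _ _
    _ ≤ _ := Matrix.rank_mul_le_right _ _

end H77GJ
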