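import Pool.Agent.Helper77.GJ.KExact

/-!
# MP_8096dd_al : generic Jordan type, the parity of the rank
-/

namespace H77GJ

open Matrix Module

/-- Linear algebra: a differential `D` with zero homology and a `q` with `D q + q D = D`. -/
theorem rank_of_homotopy {K W : Type} [Field K] [AddCommGroup W] [Module K W]
    [FiniteDimensional K W] (h2 : ∀ a : Module.End K W, a + a = 0) (D q : Module.End K W)
    (hDD : D * D = 0) (hex : ∀ w, D w = 0 → ∃ v, w = D v) (hq : D * q + q * D = D) :
    LinearMap.trace K W q = (Module.finrank K (LinearMap.range D) : K) ∧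
      Module.finrank K W = 2 * Module.finrank K (LinearMap.range D) := by
  obtain ⟨h, h1, h3, h4⟩ := H77CI.exists_h D hDD
  have hone : D * h + h * D = 1 := by
    have hp : ∀ w, (1 - D * h - h * D) w = 0 := by
      intro w
      have e1 : D * (1 - D * h - h * D) = 0 := by
        rw [mul_sub, mul_sub, mul_one, ← mul_assoc, hDD, zero_mul, sub_zero, ← mul_assoc, h1, sub_self]
      have e2 : (1 - D * h - h * D) * D = 0 := by
        rw [sub_mul, sub_mul, one_mul, h1, mul_assoc, hDD, mul_zero, sub_self, sub_zero]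
      have e3 : (1 - D * h - h * D) * (1 - D * h - h * D) = 1 - D * h - h * D := by
        rw [mul_sub (1 - D * h - h * D) (1 - D * h), mul_sub, mul_one, ← mul_assoc, e2, zero_mul,
          sub_zero]
        have e5 : (1 - D * h - h * D) * h = 0 := by
          rw [sub_mul, sub_mul, one_mul, mul_assoc D h h, h4, mul_zero, sub_zero, h3, sub_self]
        have e4 : (1 - D * h - h * D) * (h * D) = 0 := by
          rw [← mul_assoc, e5, zero_mul]
        rw [e4, sub_zero]
      obtain ⟨v, hv⟩ := hex ((1 - D * h - h * D) w) (LinearMap.congr_fun e1 w)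
      calc (1 - D * h - h * D) w = ((1 - D * h - h * D) * (1 - D * h - h * D)) w := by rw [e3]
        _ = (1 - D * h - h * D) (D v) := by rw [Module.End.mul_apply, hv]
        _ = 0 := LinearMap.congr_fun e2 v
    have h5 : 1 - D * h - h * D = 0 := LinearMap.ext hp
    rw [sub_sub, sub_eq_zero] at h5
    exact h5.symm
  have hproj : LinearMap.IsProj (LinearMap.range D) (D * h) := by
    constructor
    · intro w
      exact ⟨h w, rfl⟩
    · rintro _ ⟨v, rfl⟩
      exact LinearMap.congr_fun h1 v
  constructor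
  · rw [← hproj.trace]
    calc LinearMap.trace K W q = LinearMap.trace K W (q * (D * h + h * D)) := by
          rw [hone, mul_one]
      _ = LinearMap.trace K W (q * D * h) + LinearMap.trace K W (q * h * D) := by
          rw [mul_add, map_add, mul_assoc, mul_assoc]
      _ = LinearMap.trace K W (q * D * h) + LinearMap.trace K W (D * q * h) := by
          rw [LinearMap.trace_mul_comm K (q * h) D, mul_assoc D]
      _ = LinearMap.trace K W ((D * q + q * D) * h) := by
          rw [add_mul, map_add, add_comm]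
      _ = LinearMap.trace K W (D * h) := by rw [hq]
  · have e1 := LinearMap.finrank_range_add_finrank_ker D
    have e2 : LinearMap.ker D = LinearMap.range D := by
      ext w
      constructor
      · intro hw
        obtain ⟨v, rfl⟩ := hex w hw
        exact ⟨v, rfl⟩
      · rintro ⟨v, rfl⟩
        exact LinearMap.congr_fun hDD v
    rw [e2] at e1
    omega

variable {k K J n : Type} [Field k] [Field K] [Algebra k K] [Fintype n] [DecidableEq n]
variable [DecidableEq J] [Fintype J] {lam : J → K} {θ : J → K →+ K} {x : J → Matrix n n k}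

/-- The data of an equivariant endomorphism `φ` of the matrices over `k`, extended to `K`: the
functionals `u ↦ tr (φ L_u R_v)`, for `v` in `Λ`, are given by elements of `Λ`. -/
structure PT (Λ : Set (Matrix n n k)) (φ : Module.End K (Matrix n n K)) : Prop where
  left : ∀ v ∈ Λ, ∃ α ∈ Λ, ∀ u : Matrix n n K,
    LinearMap.trace K _ (φ * (Rr (cst K v) * Lf u)) = (cst K α * u).trace
  right : ∀ v ∈ Λ, ∃ β ∈ Λ, ∀ u : Matrix n n K,
    LinearMap.trace K _ (φ * (Lf (cst K v) * Rr u)) = (cst K β * u).trace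

/-- `Λ` is the commutant of a group containing the `1 + x_j` in its centre. -/
structure Lam (Λ : Set (Matrix n n k)) (x : J → Matrix n n k) : Prop where
  mul : ∀ a ∈ Λ, ∀ b ∈ Λ, a * b ∈ Λ
  one : (1 : Matrix n n k) ∈ Λ
  mem : ∀ j, x j ∈ Λ
  comm : ∀ a ∈ Λ, ∀ j, a * x j = x j * a
  loc : ∀ a ∈ Λ, ∃ c : k, IsNilpotent (a - c • (1 : Matrix n n k))

theorem cst_sub_smul (a : Matrix n n k) (s : k) :
    cst K a - (algebraMap k K s) • (1 : Matrix n n K) = cst K (a - s • (1 : Matrix n n k)) := by
  ext i j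
  simp only [cst, Matrix.sub_apply, Matrix.map_apply, Matrix.smul_apply, Matrix.one_apply,
    smul_eq_mul, map_sub, map_mul]
  by_cases h : i = j
  · simp [h]
  · simp [h]

theorem isNilpotent_cst {a : Matrix n n k} (ha : IsNilpotent a) : IsNilpotent (cst K a) := by
  obtain ⟨N, hN⟩ := ha
  refine ⟨N, ?_⟩
  have h1 : ∀ N : ℕ, cst K (a ^ N) = (cst K a) ^ N := by
    intro N
    induction N with
    | zero => rw [pow_zero, pow_zero, cst_one]
    | succ N ih => rw [pow_succ, pow_succ, cst_mul, ih]
  rw [← h1, hN]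
  simp [cst]

/-- The operator `p`. -/
noncomputable def pp (θ : J → K →+ K) (lam : J → K) (x : J → Matrix n n k)
    (h : Matrix n n K) (e : J → Matrix n n K) : Module.End K (Matrix n n K) :=
  TL θ x (XX lam x * h) + TR θ x (h * XX lam x) + ∑ j, lam j • (TL θ x (e j) * Rr (cst K (x j)))

theorem DD_pp (H : Dat k K J n lam θ x) {h : Matrix n n K} (N : NF (XX lam x) h)
    {e : J → Matrix n n K} (he : ∀ j, XX lam x * e j + e j * XX lam x = cst K (x j)) :
    DD θ lam x * pp θ lam x h e + pp θ lam x h e * DD θ lam x = DD θ lam x := by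
  have h1 : DD θ lam x * TL θ x (XX lam x * h) + TL θ x (XX lam x * h) * DD θ lam x
      = TL θ x (XX lam x) := by
    rw [DD_TL H, ← mul_assoc, N.XX, zero_mul, zero_add, N.XhX]
  have h2 : DD θ lam x * TR θ x (h * XX lam x) + TR θ x (h * XX lam x) * DD θ lam x
      = TR θ x (XX lam x) := by
    rw [DD_TR H, ← mul_assoc, N.XhX, mul_assoc, N.XX, mul_zero, add_zero]
  have h3 : ∀ j, DD θ lam x * (lam j • (TL θ x (e j) * Rr (cst K (x j))))
      + (lam j • (TL θ x (e j) * Rr (cst K (x j)))) * DD θ lam x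
      = lam j • (Lf (cst K (x j)) * Rr (cst K (x j))) := by
    intro j
    rw [mul_smul_comm, smul_mul_assoc, ← smul_add]
    congr 1
    rw [mul_assoc, ← DD_comm_Rr H (fun i => H.xc j i), ← mul_assoc, ← mul_assoc, ← add_mul,
      DD_TL H, he, TL_cst H]
  have h4 : DD θ lam x * (∑ j, lam j • (TL θ x (e j) * Rr (cst K (x j))))
      + (∑ j, lam j • (TL θ x (e j) * Rr (cst K (x j)))) * DD θ lam x = TT lam x := by
    rw [Finset.mul_sum, Finset.sum_mul, ← Finset.sum_add_distrib, TT]
    exact Finset.sum_congr rfl fun j _ => h3 j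
  have h5 : DD θ lam x * pp θ lam x h e + pp θ lam x h e * DD θ lam x
      = TL θ x (XX lam x) + TR θ x (XX lam x) + TT lam x := by
    rw [← h1, ← h2, ← h4, pp]
    simp only [mul_add, add_mul]
    abel
  rw [h5, TL_X H, TR_X H, DD_eq H]
  have h6 := H.twoB (TT lam x)
  calc _ = Lf (XX lam x) + Rr (XX lam x) + TT lam x + (TT lam x + TT lam x) := by abel
    _ = _ := by rw [h6, add_zero]

theorem trace_scalar_nil {X h : Matrix n n K} (hXhX : X * h * X = X) {a : Matrix n n K} {s : K}
    (ha : IsNilpotent (a - s • (1 : Matrix n n K))) (haX : a * X = X * a) :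
    (a * (X * h)).trace = s * (X * h).trace := by
  set b := a - s • (1 : Matrix n n K) with hb
  have hbX : b * X = X * b := by
    rw [hb, sub_mul, mul_sub, haX]
    simp
  have h1 : IsNilpotent (b * (X * h)) := by
    obtain ⟨N, hN⟩ := ha
    have h2 : ∀ N : ℕ, (b * (X * h)) ^ (N + 1) = b ^ (N + 1) * (X * h) := by
      intro N
      induction N with
      | zero => simp
      | succ N ih =>
        rw [pow_succ, ih, pow_succ b (N + 1)]
        calc b ^ (N + 1) * (X * h) * (b * (X * h))
            = b ^ (N + 1) * (X * h * (b * X) * h) := by simp only [mul_assoc]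
          _ = b ^ (N + 1) * (X * h * X * (b * h)) := by rw [hbX]; simp only [mul_assoc]
          _ = b ^ (N + 1) * (b * X * h) := by rw [hXhX, ← mul_assoc X b h, ← hbX]
          _ = b ^ (N + 1) * b * (X * h) := by simp only [mul_assoc]
    exact ⟨N + 1, by rw [h2, pow_succ, hN, zero_mul, zero_mul]⟩
  have h3 : (b * (X * h)).trace = 0 :=
    (Matrix.isNilpotent_trace_of_isNilpotent h1).eq_zero
  have h4 : a = b + s • (1 : Matrix n n K) := by rw [hb]; abel
  rw [h4, add_mul, Matrix.trace_add, h3, zero_add, smul_mul_assoc, one_mul, Matrix.trace_smul,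
    smul_eq_mul]

/-- The trace of `φ p` vanishes. -/
theorem trace_pp (H : Dat k K J n lam θ x) {h : Matrix n n K} (N : NF (XX lam x) h)
    (hodd : ((Fintype.card n : ℕ) : K) = 1) {Λ : Set (Matrix n n k)} (HΛ : Lam Λ x)
    {φ : Module.End K (Matrix n n K)} (Hφ : PT Λ φ) {e : J → Matrix n n K}
    (he : ∀ j, XX lam x * e j + e j * XX lam x = cst K (x j))
    (htr : ∀ j, θ j (XX lam x * h).trace = 0)
    (HL : ∀ α ∈ Λ, IsNilpotent α → ∀ c : Matrix n n K,
      XX lam x * c + c * XX lam x = cst K α → ∀ j, (c * cst K (x j)).trace = 0) :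
    LinearMap.trace K _ (φ * pp θ lam x h e) = 0 := by
  set X := XX lam x with hX
  -- scalar plus nilpotent over `K`
  have hloc : ∀ a ∈ Λ, ∃ s : k, IsNilpotent (cst K a - (algebraMap k K s) • (1 : Matrix n n K)) := by
    intro a ha
    obtain ⟨s, hs⟩ := HΛ.loc a ha
    refine ⟨s, ?_⟩
    rw [cst_sub_smul]
    exact isNilpotent_cst hs
  have hΛX : ∀ a ∈ Λ, cst K a * X = X * cst K a := fun a ha => XX_comm (HΛ.comm a ha)
  have htrs : ∀ {a : Matrix n n K} {s : K}, IsNilpotent (a - s • (1 : Matrix n n K)) →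
      a.trace = s := by
    intro a s ha
    have h1 : (a - s • (1 : Matrix n n K)).trace = 0 :=
      (Matrix.isNilpotent_trace_of_isNilpotent ha).eq_zero
    rw [Matrix.trace_sub, Matrix.trace_smul, Matrix.trace_one, hodd, smul_eq_mul, mul_one,
      sub_eq_zero] at h1
    exact h1
  -- the functional
  let T : Module.End K (Matrix n n K) →+ K :=
    { toFun := fun Y => LinearMap.trace K _ (φ * Y)
      map_zero' := by rw [mul_zero, map_zero]
      map_add' := fun Y Z => by rw [mul_add, map_add] }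
  have hTv : ∀ Y, T Y = LinearMap.trace K _ (φ * Y) := fun Y => rfl
  have htr2 : (h * X).trace = (X * h).trace := Matrix.trace_mul_comm h X
  -- first part
  obtain ⟨α, hα, hα'⟩ := Hφ.left 1 HΛ.one
  obtain ⟨β, hβ, hβ'⟩ := Hφ.right 1 HΛ.one
  obtain ⟨s, hs⟩ := hloc α hα
  obtain ⟨s', hs'⟩ := hloc β hβ
  have hone : Rr (cst K (1 : Matrix n n k)) = 1 := by
    rw [cst_one]
    exact map_one Rf
  have hone' : Lf (cst K (1 : Matrix n n k)) = 1 := by
    rw [cst_one]
    exact map_one Lf
  have hss : algebraMap k K s = algebraMap k K s' := by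
    have e1 := hα' 1
    have e2 := hβ' 1
    rw [hone, mul_one, htrs hs] at e1
    rw [hone', mul_one, htrs hs'] at e2
    rw [← e1, ← e2]
    congr 1
    rw [map_one, one_mul, one_mul]
    have : Rr (1 : Matrix n n K) = 1 := map_one Rf
    rw [this]
  have p1 : T (TL θ x (X * h)) = algebraMap k K s * (X * h).trace := by
    have e1 : T (TL θ x (X * h)) = T (Lf (X * h)) := by
      refine tws_functional' T {u | ∀ a ∈ Λ, (cst K a * u).trace = 0}
        {b | ∃ v ∈ Λ, b = Rr (cst K v)} ?_ ?_ ?_ ?_ _ _ ?_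
      · intro j u hu a ha
        rw [← dM_cst_mul H, trace_dM, hu a ha, map_zero]
      · rintro j _ ⟨v, hv, rfl⟩
        exact ⟨x j * v, HΛ.mul _ (HΛ.mem j) _ hv, by rw [Rr_mul, ← cst_mul]⟩
      · rintro _ ⟨v, hv, rfl⟩ u hu
        obtain ⟨a, ha, ha'⟩ := Hφ.left v hv
        rw [hTv, ha']
        exact hu a ha
      · intro j
        exact ⟨x j, HΛ.mem j, rfl⟩
      · intro j a ha
        rw [← dM_cst_mul H, trace_dM]
        obtain ⟨t, ht⟩ := hloc a ha
        rw [trace_scalar_nil N.XhX ht (hΛX a ha), H.mul, H.cst, zero_mul, zero_add, htr, mul_zero]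
    rw [e1, hTv]
    have e2 := hα' (X * h)
    rw [hone, one_mul] at e2
    rw [e2, trace_scalar_nil N.XhX hs (hΛX α hα)]
  -- second part
  have hreflect : ∀ {a : Matrix n n K} {t : K}, IsNilpotent (a - t • (1 : Matrix n n K)) →
      a * X = X * a → (a * (h * X)).trace = t * (X * h).trace := by
    intro a t ha haX
    rw [← mul_assoc, Matrix.trace_mul_comm, ← mul_assoc, ← haX, mul_assoc]
    exact trace_scalar_nil N.XhX ha haX
  have p2 : T (TR θ x (h * X)) = algebraMap k K s' * (X * h).trace := by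
    have e1 : T (TR θ x (h * X)) = T (Rr (h * X)) := by
      refine tws_functional' (R := (Matrix n n K)ᵐᵒᵖ) T
        {u | ∀ a ∈ Λ, (cst K a * u.unop).trace = 0}
        {b | ∃ v ∈ Λ, b = Lf (cst K v)} ?_ ?_ ?_ ?_ _ _ ?_
      · intro j u hu a ha
        change (cst K a * dM θ j u.unop).trace = 0
        rw [← dM_cst_mul H, trace_dM, hu a ha, map_zero]
      · rintro j _ ⟨v, hv, rfl⟩
        exact ⟨v * x j, HΛ.mul _ hv _ (HΛ.mem j), by rw [cst_mul, map_mul]⟩
      · rintro _ ⟨v, hv, rfl⟩ u hu
        obtain ⟨a, ha, ha'⟩ := Hφ.right v hv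
        rw [hTv]
        exact (ha' u.unop).trans (hu a ha)
      · intro j
        exact ⟨x j, HΛ.mem j, rfl⟩
      · intro j a ha
        change (cst K a * dM θ j (h * X)).trace = 0
        rw [← dM_cst_mul H, trace_dM]
        obtain ⟨t, ht⟩ := hloc a ha
        rw [hreflect ht (hΛX a ha), H.mul, H.cst, zero_mul, zero_add, htr, mul_zero]
    rw [e1, hTv]
    have e2 := hβ' (h * X)
    rw [hone', one_mul] at e2
    rw [e2, hreflect hs' (hΛX β hβ)]
  -- third part
  have p3 : ∀ j, T (TL θ x (e j) * Rr (cst K (x j))) = 0 := by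
    intro j
    have hcomm : TL θ x (e j) * Rr (cst K (x j)) = Rr (cst K (x j)) * TL θ x (e j) :=
      (Rr_comm_TL _ (fun i => by rw [← cst_mul, ← cst_mul, H.xc]) _).symm
    rw [hcomm]
    refine tws_functional T {u | ∀ a ∈ Λ, IsNilpotent a → (cst K a * u).trace = 0}
        {b | ∃ i, ∃ v ∈ Λ, b = Rr (cst K (x i * v))} ?_ ?_ ?_ _ _ ⟨j, 1, HΛ.one, by rw [mul_one]⟩
        _ ?_
    · intro i u hu a ha hn
      rw [← dM_cst_mul H, trace_dM, hu a ha hn, map_zero]
    · rintro i _ ⟨l, v, hv, rfl⟩
      refine ⟨i, x l * v, HΛ.mul _ (HΛ.mem l) _ hv, ?_⟩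
      rw [Rr_mul, ← cst_mul]
    · rintro _ ⟨i, v, hv, rfl⟩ u hu
      obtain ⟨a, ha, ha'⟩ := Hφ.left (x i * v) (HΛ.mul _ (HΛ.mem i) _ hv)
      rw [hTv, ha']
      apply hu a ha
      -- `a` is nilpotent: its trace is zero
      obtain ⟨t, ht⟩ := HΛ.loc a ha
      have hat : (cst K a).trace = 0 := by
        have e1 := ha' 1
        rw [mul_one, map_one, mul_one] at e1
        rw [← e1]
        have e2 := hβ' (cst K (x i * v))
        rw [hone', one_mul] at e2
        rw [e2]
        have e3 : IsNilpotent (cst K β * cst K (x i * v)) := by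
          refine ⟨2, ?_⟩
          rw [← cst_mul, pow_two, ← cst_mul]
          have e4 : β * (x i * v) * (β * (x i * v)) = 0 := by
            have c1 : β * (x i * v) = x i * (β * v) := by
              rw [← mul_assoc, HΛ.comm β hβ, mul_assoc]
            rw [c1, mul_assoc, ← mul_assoc (β * v), HΛ.comm _ (HΛ.mul _ hβ _ hv), mul_assoc,
              ← mul_assoc (x i) (x i), H.xx, zero_mul]
          rw [e4]
          simp [cst]
        exact (Matrix.isNilpotent_trace_of_isNilpotent e3).eq_zero
      have hn2 : IsNilpotent (cst K a - (algebraMap k K t) • (1 : Matrix n n K)) := by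
        rw [cst_sub_smul]
        exact isNilpotent_cst ht
      have ht0 : algebraMap k K t = 0 := by rw [← htrs hn2, hat]
      have ht1 : t = 0 := (map_eq_zero (algebraMap k K)).1 ht0
      rw [ht1, zero_smul, sub_zero] at ht
      exact ht
    · intro a ha hn
      have hcn : IsNilpotent (cst K a) := isNilpotent_cst hn
      obtain ⟨c, hc⟩ := nil_comm H.twoM N hodd (hΛX a ha).symm hcn
      have e1 : (cst K a * e j).trace = (c * cst K (x j)).trace := by
        rw [← hc, ← he j, add_mul, mul_add, Matrix.trace_add, Matrix.trace_add]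
        rw [mul_assoc X c, Matrix.trace_mul_comm X, mul_assoc c X, mul_assoc c (e j), add_comm]
      rw [e1]
      exact HL a ha hn c hc j
  rw [← hTv, pp, map_add, map_add, map_sum, p1, p2, hss, H.two, zero_add]
  refine Finset.sum_eq_zero fun j _ => ?_
  rw [hTv, mul_smul_comm, map_smul, ← hTv, p3, smul_zero]

/-- The conclusion over the generic field. -/
theorem four_dvd (H : Dat k K J n lam θ x) {h : Matrix n n K} (N : NF (XX lam x) h)
    (hodd : ((Fintype.card n : ℕ) : K) = 1) {Λ : Set (Matrix n n k)} (HΛ : Lam Λ x)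
    {φ : Module.End K (Matrix n n K)} (Hφ : PT Λ φ) (hchar : CharP K 2)
    (htr : ∀ j, θ j (XX lam x * h).trace = 0)
    (HL : ∀ α ∈ Λ, IsNilpotent α → ∀ c : Matrix n n K,
      XX lam x * c + c * XX lam x = cst K α → ∀ j, (c * cst K (x j)).trace = 0)
    (hφφ : φ * φ = φ) (hφD : φ * DD θ lam x = DD θ lam x * φ)
    {a : Matrix n n k} (ha : a ∈ Λ) (hnil : IsNilpotent a) (hφ1 : φ 1 = cst K a) :
    4 ∣ Module.finrank K (LinearMap.range φ) := by
  have he : ∀ j, ∃ e : Matrix n n K, XX lam x * e + e * XX lam x = cst K (x j) := by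
    intro j
    refine nil_comm H.twoM N hodd (X_comm H j) ⟨2, ?_⟩
    rw [pow_two, ← cst_mul, H.xx]
    simp [cst]
  choose e he using he
  have hmem : ∀ (Y : Module.End K (Matrix n n K)), ∀ w ∈ LinearMap.range φ,
      (φ * Y) w ∈ LinearMap.range φ := fun Y w _ => ⟨Y w, rfl⟩
  have hφw : ∀ w ∈ LinearMap.range φ, φ w = w := by
    rintro _ ⟨v, rfl⟩
    exact LinearMap.congr_fun hφφ v
  set D' := (φ * DD θ lam x).restrict (hmem (DD θ lam x)) with hD'
  set q' := (φ * pp θ lam x h e).restrict (hmem (pp θ lam x h e)) with hq'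
  have hD'v : ∀ w : LinearMap.range φ, (D' w : Matrix n n K) = DD θ lam x w := by
    intro w
    change (φ * DD θ lam x) w = _
    rw [hφD, Module.End.mul_apply, hφw _ w.2]
  have h2W : ∀ b : Module.End K (LinearMap.range φ), b + b = 0 := by
    intro b
    refine LinearMap.ext fun w => Subtype.ext ?_
    exact H.twoM _
  have hDD : D' * D' = 0 := by
    refine LinearMap.ext fun w => Subtype.ext ?_
    rw [Module.End.mul_apply, hD'v, hD'v]
    exact LinearMap.congr_fun (DD_sq H) w
  have hex : ∀ w, D' w = 0 → ∃ v, w = D' v := by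
    intro w hw
    have h1 : DD θ lam x (w : Matrix n n K) = 0 := by
      rw [← hD'v, hw]
      rfl
    obtain ⟨τ, v, hv⟩ := DD_exact H N hodd h1
    obtain ⟨c, hc⟩ := nil_comm H.twoM N hodd (XX_comm (HΛ.comm a ha)).symm
      (isNilpotent_cst hnil)
    have h3 : DD θ lam x (iota θ x c) = cst K a := by
      rw [DD_iota H, hc, iota_eq, iotaL_cst H]
    have h4 : (w : Matrix n n K) = DD θ lam x (φ (τ • iota θ x c + φ v)) := by
      have e1 : DD θ lam x (φ v) = φ (DD θ lam x v) := (LinearMap.congr_fun hφD v).symm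
      have e2 : ∀ y, DD θ lam x (φ y) = φ (DD θ lam x y) := fun y =>
        (LinearMap.congr_fun hφD y).symm
      calc (w : Matrix n n K) = φ (φ w) := by rw [hφw _ w.2, hφw _ w.2]
        _ = φ (τ • φ 1 + φ (DD θ lam x v)) := by rw [hv, map_add, map_smul]
        _ = φ (DD θ lam x (τ • iota θ x c + φ v)) := by
            rw [map_add (DD θ lam x), map_smul, h3, hφ1, e1]
        _ = _ := (e2 _).symm
    refine ⟨⟨φ (τ • iota θ x c + φ v), ⟨_, rfl⟩⟩, Subtype.ext ?_⟩
    rw [hD'v]
    exact h4
  have hq : D' * q' + q' * D' = D' := by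
    refine LinearMap.ext fun w => Subtype.ext ?_
    have e1 : ((q' : Module.End K (LinearMap.range φ)) w : Matrix n n K)
        = φ (pp θ lam x h e w) := rfl
    have e2 : ((q' (D' w) : LinearMap.range φ) : Matrix n n K)
        = φ (pp θ lam x h e (DD θ lam x w)) := by
      change φ (pp θ lam x h e (D' w : Matrix n n K)) = _
      rw [hD'v]
    rw [LinearMap.add_apply, Module.End.mul_apply, Module.End.mul_apply]
    change ((D' (q' w) : LinearMap.range φ) : Matrix n n K)
      + ((q' (D' w) : LinearMap.range φ) : Matrix n n K) = (D' w : Matrix n n K)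
    rw [hD'v, hD'v, e1, e2]
    have e3 : DD θ lam x (φ (pp θ lam x h e w)) = φ (DD θ lam x (pp θ lam x h e w)) :=
      (LinearMap.congr_fun hφD _).symm
    rw [e3, ← map_add]
    have e4 := LinearMap.congr_fun (DD_pp H N he) (w : Matrix n n K)
    rw [LinearMap.add_apply, Module.End.mul_apply, Module.End.mul_apply] at e4
    rw [e4, ← Module.End.mul_apply, hφD, Module.End.mul_apply, hφw _ w.2]
  obtain ⟨t1, t2⟩ := rank_of_homotopy h2W D' q' hDD hex hq
  have t3 : LinearMap.trace K (LinearMap.range φ) q' = 0 := by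
    rw [hq', LinearMap.trace_restrict_eq_of_forall_mem (LinearMap.range φ) _
      (fun w => ⟨pp θ lam x h e w, rfl⟩)]
    exact trace_pp H N hodd HΛ Hφ he htr HL
  rw [t3] at t1
  have t4 := (CharP.cast_eq_zero_iff K 2 _).1 t1.symm
  rw [t2]
  obtain ⟨m, hm⟩ := t4
  exact ⟨m, by rw [hm]; ring⟩

end H77GJ
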