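import Pool.Agent.Helper77.GJ.Reg

/-!
# MP_8096dd_al : generic Jordan type, pencils  (BLOCK GJ-P)

`X'`, `Y`, `a` are matrices over a field `F` of characteristic `2` with `X'² = 0`, `Y² = 0`,
`X' Y = Y X'`, `a` nilpotent and commuting with `X'`, `Y`. Over `K = F(t)` let `X = X' + t Y` and let
`X c + c X = a`. Then `tr (c Y) = 0`.

Proof.
* (1) `tr (c X) = 0`: for every nilpotent `a` commuting with `X` (`X² = 0`) over a field of
  characteristic `2`, `tr (c X)` is the trace of `a` on the image of `X`. Quick proof: let `h` be a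
  matrix with `X h X = X`. Then `tr (c X) = tr (c X h X) = tr (X c X h)` and `X c X = a X` (from
  `X c + c X = a` and `X X = 0`), so `tr (c X) = tr (a X h)`, and `a X h` is nilpotent:
  `(a (X h)) ^ N = a ^ N (X h)` because `(X h) a (X h) = X h X a h`... (indeed
  `(X h) a (X h) = (X h X) a h = X a h = a X h`). A nilpotent matrix over a field has trace zero.
* (2) apply `reg` with `O = F[t]` (`Polynomial F`), `K = RatFunc F`, `δ = Polynomial.derivative` as an
  additive map, `X = X' + t Y` (over `F[t]`), whose derivative is `Y`: `tr (c Y)` is (the image of) a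
  polynomial `p`.
* (3) apply `reg` with `O = F[s]` and the embedding `ψ : F[s] → RatFunc F`, `s ↦ 1/t` (use
  `Polynomial.aeval` or `eval₂RingHom`, and `RingHom.toAlgebra`; injectivity: `1/t` is transcendental;
  for example compose with the substitution, or compare degrees), the matrix `Y + s X'` and `t c` in
  place of `c` (note `(Y + X'/t) (t c) + (t c) (Y + X'/t) = a`): `t tr (c X') = ψ q` for a polynomial
  `q`.
* (4) by (1) `tr (c X') + t tr (c Y) = 0`, so `t ^ 2 p = ψ q` (characteristic 2). With `d = natDegree q`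
  multiply by `t ^ d`: `t ^ (d + 2) p` is a polynomial in `t` of degree `≤ d` (`q.reverse`, see
  `Polynomial.eval₂_reverse_mul_pow`), so `p = 0`.
-/

namespace H77GJ

open Matrix

theorem trace_cX {K : Type} [Field K] [CharP K 2] {n : Type} [Fintype n] [DecidableEq n]
    (X a c : Matrix n n K) (hX : X * X = 0) (haX : a * X = X * a) (ha : IsNilpotent a)
    (hc : X * c + c * X = a) : (c * X).trace = 0 := by
  obtain ⟨ρ, U, P, W, r, s, hXf, hr, hs, hP⟩ := exists_fac X
  have hu : IsUnit P.det := isUnit_iff_ne_zero.mpr hP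
  obtain ⟨h, hh⟩ : ∃ h : Matrix n n K, X * h * X = X := by
    refine ⟨s * P⁻¹ * r, ?_⟩
    have e : U * P * W * (s * P⁻¹ * r) * (U * P * W)
        = U * P * (W * s) * P⁻¹ * (r * U) * P * W := by simp only [Matrix.mul_assoc]
    rw [hXf, e, hr, hs, Matrix.mul_one, Matrix.mul_one, Matrix.mul_assoc U P P⁻¹,
      Matrix.mul_nonsing_inv _ hu, Matrix.mul_one]
  have h1 : X * c * X = a * X := by
    rw [← hc, Matrix.add_mul, Matrix.mul_assoc c, hX, Matrix.mul_zero, add_zero]
  have h2 : (c * X).trace = (a * (X * h)).trace := by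
    have e1 : c * X = c * (X * h) * X := by rw [Matrix.mul_assoc, hh]
    rw [e1, Matrix.trace_mul_comm, ← Matrix.mul_assoc, ← Matrix.mul_assoc, h1, Matrix.mul_assoc]
  have h3 : X * h * (a * (X * h)) = a * (X * h) := by
    rw [← Matrix.mul_assoc a, haX, Matrix.mul_assoc X a h, ← Matrix.mul_assoc, hh]
  have h4 : ∀ k : ℕ, (a * (X * h)) ^ (k + 1) = a ^ (k + 1) * (X * h) := by
    intro k
    induction k with
    | zero => simp
    | succ k ih =>
      rw [pow_succ, ih, pow_succ a (k + 1), Matrix.mul_assoc, h3, ← Matrix.mul_assoc,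
        ← Matrix.mul_assoc]
  have h5 : IsNilpotent (a * (X * h)) := by
    obtain ⟨N, hN⟩ := ha
    refine ⟨N + 1, ?_⟩
    rw [h4, pow_succ, hN, Matrix.zero_mul, Matrix.zero_mul]
  rw [h2]
  exact (Matrix.isNilpotent_trace_of_isNilpotent h5).eq_zero

/-- `reg` with an explicit ring homomorphism. -/
theorem reg_hom {O K : Type} [CommRing O] [IsDomain O] [IsPrincipalIdealRing O] [Field K]
    (ψ : O →+* K) (hinj : Function.Injective ψ) (δ : O →+ O)
    (hδ : ∀ a b, δ (a * b) = δ a * b + a * δ b) {n : Type} [Fintype n] [DecidableEq n]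
    (X a : Matrix n n O) (hX : X * X = 0) (haX : a * X = X * a) (ha : IsNilpotent a)
    (c : Matrix n n K) (hc : X.map ψ * c - c * X.map ψ = a.map ψ) :
    ∃ o : O, (c * (X.map δ).map ψ).trace = ψ o := by
  let _ := ψ.toAlgebra
  exact reg (K := K) hinj δ hδ X a hX haX ha c hc

/-- `reg` for a pencil `A + s B` over `F[s]`, with the variable mapped to `z`. -/
theorem reg_pencil {F K : Type} [Field F] [CharP F 2] [Field K] [CharP K 2]
    (ψ : Polynomial F →+* K) (hinj : Function.Injective ψ) {n : Type} [Fintype n] [DecidableEq n]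
    (A B a : Matrix n n F) (hA : A * A = 0) (hB : B * B = 0) (hAB : A * B = B * A)
    (haA : a * A = A * a) (haB : a * B = B * a) (ha : IsNilpotent a) (c : Matrix n n K)
    (hc : (A.map (ψ.comp Polynomial.C) + ψ Polynomial.X • B.map (ψ.comp Polynomial.C)) * c
      + c * (A.map (ψ.comp Polynomial.C) + ψ Polynomial.X • B.map (ψ.comp Polynomial.C))
      = a.map (ψ.comp Polynomial.C)) :
    ∃ o : Polynomial F, (c * B.map (ψ.comp Polynomial.C)).trace = ψ o := by
  have hC : ∀ M N : Matrix n n F, (M * N).map (Polynomial.C : F →+* Polynomial F)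
      = M.map Polynomial.C * N.map Polynomial.C := fun M N => Matrix.map_mul
  have hC0 : (0 : Matrix n n F).map (Polynomial.C : F →+* Polynomial F) = 0 := by
    ext i j; simp
  set X : Matrix n n (Polynomial F) := A.map Polynomial.C + (Polynomial.X : Polynomial F) •
    B.map Polynomial.C with hXdef
  have hXψ : X.map ψ = A.map (ψ.comp Polynomial.C)
      + ψ Polynomial.X • B.map (ψ.comp Polynomial.C) := by
    ext i j
    simp only [hXdef, Matrix.map_apply, Matrix.add_apply, Matrix.smul_apply, smul_eq_mul, map_add,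
      map_mul, RingHom.comp_apply]
  have hX2 : X * X = 0 := by
    rw [hXdef, Matrix.add_mul, Matrix.mul_add, Matrix.mul_add, Matrix.smul_mul, Matrix.smul_mul,
      Matrix.mul_smul, Matrix.mul_smul, ← hC, ← hC, ← hC, ← hC, hA, hB, ← hAB, hC0]
    ext i j
    simp only [zero_add, smul_zero, add_zero, Matrix.add_apply, Matrix.zero_apply]
    exact CharTwo.add_self_eq_zero _
  have haX : a.map Polynomial.C * X = X * a.map Polynomial.C := by
    rw [hXdef, Matrix.add_mul, Matrix.mul_add, Matrix.smul_mul, Matrix.mul_smul, ← hC, ← hC,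
      ← hC, ← hC, haA, haB]
  have haN : IsNilpotent (a.map (Polynomial.C : F →+* Polynomial F)) := by
    have := ha.map (Polynomial.C : F →+* Polynomial F).mapMatrix
    simpa [RingHom.mapMatrix_apply] using this
  have hXδ : (X.map (Polynomial.derivative (R := F)).toAddMonoidHom).map ψ
      = B.map (ψ.comp Polynomial.C) := by
    ext i j
    simp [hXdef, Matrix.map_apply]
  obtain ⟨o, ho⟩ := reg_hom ψ hinj (Polynomial.derivative (R := F)).toAddMonoidHom
    (by
      intro p q
      simp [Polynomial.derivative_mul]) X (a.map Polynomial.C) hX2 haX haN c (by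
      rw [hXψ]
      have e : (a.map Polynomial.C).map ψ = a.map (ψ.comp Polynomial.C) := by
        ext i j; simp [Matrix.map_apply]
      rw [e, ← hc]
      ext i j
      rw [Matrix.sub_apply, Matrix.add_apply]
      exact CharTwo.sub_eq_add _ _)
  refine ⟨o, ?_⟩
  rw [← hXδ]
  exact ho

theorem pencil {F : Type} [Field F] [CharP F 2] {n : Type} [Fintype n] [DecidableEq n]
    (X' Y a : Matrix n n F) (hX' : X' * X' = 0) (hY : Y * Y = 0) (hXY : X' * Y = Y * X')
    (haX : a * X' = X' * a) (haY : a * Y = Y * a) (ha : IsNilpotent a)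
    (c : Matrix n n (RatFunc F))
    (hc : (X'.map RatFunc.C + (RatFunc.X : RatFunc F) • Y.map RatFunc.C) * c
      + c * (X'.map RatFunc.C + (RatFunc.X : RatFunc F) • Y.map RatFunc.C) = a.map RatFunc.C) :
    (c * Y.map RatFunc.C).trace = 0 := by
  have hT0 : (RatFunc.X : RatFunc F) ≠ 0 := RatFunc.X_ne_zero
  have : CharP (RatFunc F) 2 :=
    (charP_of_injective_algebraMap (algebraMap F (RatFunc F)).injective 2)
  set T : RatFunc F := RatFunc.X with hT
  -- at `t`
  have hcomp1 : (algebraMap (Polynomial F) (RatFunc F)).comp Polynomial.C = RatFunc.C := by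
    ext x
    simp
  obtain ⟨p, hp⟩ := reg_pencil (algebraMap (Polynomial F) (RatFunc F))
    (RatFunc.algebraMap_injective F) X' Y a hX' hY hXY haX haY ha c (by
      rw [hcomp1, RatFunc.algebraMap_X]; exact hc)
  rw [hcomp1] at hp
  -- at `1/t`
  have htr : Transcendental F T⁻¹ := by
    intro h
    exact RatFunc.transcendental_X (K := F) (by
      have := h.inv
      rwa [inv_inv] at this)
  set ψ : Polynomial F →+* RatFunc F := Polynomial.eval₂RingHom RatFunc.C T⁻¹ with hψ
  have hinj : Function.Injective ψ := by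
    have h1 := transcendental_iff_injective.mp htr
    intro x y hxy
    apply h1
    rw [Polynomial.aeval_def, Polynomial.aeval_def]
    exact hxy
  have hcomp2 : ψ.comp Polynomial.C = RatFunc.C := by
    ext x
    simp [hψ]
  have hψX : ψ Polynomial.X = T⁻¹ := by simp [hψ]
  obtain ⟨q, hq⟩ := reg_pencil ψ hinj Y X' a hY hX' hXY.symm haY haX ha (T • c) (by
      have e : X'.map (RatFunc.C : F →+* RatFunc F) + T • Y.map RatFunc.C
          = T • (Y.map RatFunc.C + T⁻¹ • X'.map RatFunc.C) := by
        rw [smul_add, smul_smul, mul_inv_cancel₀ hT0, one_smul, add_comm]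
      rw [hcomp2, hψX, ← hc, e, Matrix.mul_smul, Matrix.smul_mul, Matrix.smul_mul,
        Matrix.mul_smul])
  rw [hcomp2, Matrix.smul_mul, Matrix.trace_smul, smul_eq_mul] at hq
  -- the relation
  have hM : ∀ M N : Matrix n n F, (M * N).map (RatFunc.C : F →+* RatFunc F)
      = M.map RatFunc.C * N.map RatFunc.C := fun M N => Matrix.map_mul
  have hM0 : (0 : Matrix n n F).map (RatFunc.C : F →+* RatFunc F) = 0 := by
    ext i j; simp
  have hrel : (c * (X'.map RatFunc.C + T • Y.map RatFunc.C)).trace = 0 := by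
    refine trace_cX _ (a.map RatFunc.C) c ?_ ?_ ?_ hc
    · rw [Matrix.add_mul, Matrix.mul_add, Matrix.mul_add, Matrix.smul_mul, Matrix.smul_mul,
        Matrix.mul_smul, Matrix.mul_smul, ← hM, ← hM, ← hM, ← hM, hX', hY, ← hXY, hM0]
      ext i j
      simp only [zero_add, smul_zero, add_zero, Matrix.add_apply, Matrix.zero_apply]
      exact CharTwo.add_self_eq_zero _
    · rw [Matrix.add_mul, Matrix.mul_add, Matrix.smul_mul, Matrix.mul_smul, ← hM, ← hM,
        ← hM, ← hM, haX, haY]
    · have := ha.map (RatFunc.C : F →+* RatFunc F).mapMatrix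
      simpa [RingHom.mapMatrix_apply] using this
  rw [Matrix.mul_add, Matrix.trace_add, Matrix.mul_smul, Matrix.trace_smul, smul_eq_mul] at hrel
  have hrel2 : ψ q = - (T ^ 2 * (algebraMap (Polynomial F) (RatFunc F)) p) := by
    rw [← hp, ← hq]
    linear_combination T * hrel
  let _ : Invertible T⁻¹ := invertibleOfNonzero (inv_ne_zero hT0)
  have hrev := Polynomial.eval₂_reverse_mul_pow (RatFunc.C : F →+* RatFunc F) T⁻¹ q
  have h1 : Polynomial.eval₂ (RatFunc.C : F →+* RatFunc F) T⁻¹ q = ψ q := rfl
  have h2 : (⅟(T⁻¹) : RatFunc F) = T := by rw [invOf_eq_inv, inv_inv]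
  have h3 : ∀ g : Polynomial F, Polynomial.eval₂ (RatFunc.C : F →+* RatFunc F) T g
      = algebraMap (Polynomial F) (RatFunc F) g := by
    intro g
    rw [hT, ← RatFunc.aeval_X_left_eq_algebraMap, Polynomial.aeval_def]
    rfl
  rw [h1, hrel2, h2, h3] at hrev
  have h4 : q.reverse = - (Polynomial.X ^ (q.natDegree + 2) * p) := by
    apply RatFunc.algebraMap_injective F
    rw [map_neg, map_mul, map_pow, RatFunc.algebraMap_X, ← hT, pow_add]
    have h5 : T ^ q.natDegree ≠ 0 := pow_ne_zero _ hT0
    have h6 : (T⁻¹) ^ q.natDegree * T ^ q.natDegree = 1 := by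
      rw [← mul_pow, inv_mul_cancel₀ hT0, one_pow]
    calc (algebraMap (Polynomial F) (RatFunc F)) q.reverse
        = (algebraMap (Polynomial F) (RatFunc F)) q.reverse * (T⁻¹) ^ q.natDegree
            * T ^ q.natDegree := by rw [mul_assoc, h6, mul_one]
      _ = _ := by rw [hrev]; ring
  have hp0 : p = 0 := by
    by_contra hp0
    have h5 : (Polynomial.X ^ (q.natDegree + 2) * p).natDegree
        = q.natDegree + 2 + p.natDegree := by
      rw [Polynomial.natDegree_mul (pow_ne_zero _ Polynomial.X_ne_zero) hp0,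
        Polynomial.natDegree_X_pow]
    have h6 := Polynomial.reverse_natDegree_le q
    rw [h4, Polynomial.natDegree_neg, h5] at h6
    omega
  rw [hp, hp0, map_zero]

end H77GJ
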