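import Pool.Agent.Helper77.GJ.NFex
import Pool.Agent.Helper77.GJ.KFinal
import Pool.Agent.Helper77.GJ.Ext
import Pool.Agent.Helper77.GJ.Pencil
import Pool.Agent.Helper77.GJ.GField
import Pool.Agent.Helper77.GJ.GRank

/-!
# MP_8096dd_al : generic Jordan type, the theorem for matrices
-/

namespace H77GJ

open Matrix Module

variable {k K J n : Type} [Field k] [Field K] [Algebra k K] [Fintype n] [DecidableEq n]
variable [DecidableEq J] [Fintype J] {lam : J → K} {θ : J → K →+ K} {x : J → Matrix n n k}

/-- The pencil lemma over the generic field. -/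
theorem HL_of_pencil (H : Dat k K J n lam θ x) (hchar : CharP K 2)
    (σ : J → K →+* RatFunc K)
    (hσc : ∀ j (c : k), σ j (algebraMap k K c) = RatFunc.C (algebraMap k K c))
    (hσl : ∀ i j, σ j (lam i) = if i = j then RatFunc.X else RatFunc.C (lam i))
    {α : Matrix n n k} (hα : ∀ j, α * x j = x j * α) (hnil : IsNilpotent α)
    (c : Matrix n n K) (hc : XX lam x * c + c * XX lam x = cst K α) (j : J) :
    (c * cst K (x j)).trace = 0 := by
  set X' : Matrix n n K := XX lam x - lam j • cst K (x j) with hX'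
  have hxc : cst K (x j) * XX lam x = XX lam x * cst K (x j) := by
    exact XX_comm fun i => H.xc j i
  have hxx : cst K (x j) * cst K (x j) = 0 := by
    rw [← cst_mul, H.xx, cst_zero]
  have hαX : cst K α * XX lam x = XX lam x * cst K α := XX_comm hα
  have hαx : cst K α * cst K (x j) = cst K (x j) * cst K α := by
    rw [← cst_mul, hα, cst_mul]
  have hnil' : IsNilpotent (cst K α) := isNilpotent_cst hnil
  have h1 : X' * X' = 0 := by
    rw [hX']
    simp only [sub_mul, mul_sub, smul_mul_assoc, mul_smul_comm, hxx, hxc, XX_sq H, smul_zero,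
      sub_zero, zero_sub]
    rw [← neg_add', H.twoM, neg_zero]
  have h2 : X' * cst K (x j) = cst K (x j) * X' := by
    rw [hX', sub_mul, mul_sub, smul_mul_assoc, mul_smul_comm, hxc]
  have h3 : cst K α * X' = X' * cst K α := by
    rw [hX', sub_mul, mul_sub, smul_mul_assoc, mul_smul_comm, hαX, hαx]
  -- the image of `X` under `σ j`
  have hcst : ∀ b : Matrix n n k, (cst K b).map (σ j) = (cst K b).map RatFunc.C := by
    intro b
    ext p q
    exact hσc j (b p q)
  have hX : (XX lam x).map (σ j)
      = X'.map RatFunc.C + (RatFunc.X : RatFunc K) • (cst K (x j)).map RatFunc.C := by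
    have e1 : (XX lam x).map (σ j) = ∑ i, (σ j (lam i)) • (cst K (x i)).map RatFunc.C := by
      ext p q
      simp only [XX, Matrix.map_apply, Matrix.sum_apply, Matrix.smul_apply, smul_eq_mul, map_sum,
        map_mul, cst]
      exact Finset.sum_congr rfl fun i _ => by rw [hσc]
    have e2 : X' = ∑ i ∈ Finset.univ.erase j, lam i • cst K (x i) := by
      rw [hX', XX, ← Finset.add_sum_erase _ _ (Finset.mem_univ j), add_sub_cancel_left]
    have e3 : X'.map RatFunc.C
        = ∑ i ∈ Finset.univ.erase j, (RatFunc.C (lam i)) • (cst K (x i)).map RatFunc.C := by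
      rw [e2]
      ext p q
      simp only [Matrix.map_apply, Matrix.sum_apply, Matrix.smul_apply, smul_eq_mul, map_sum,
        map_mul]
    rw [e1, e3, ← Finset.add_sum_erase _ _ (Finset.mem_univ j), hσl, if_pos rfl, add_comm]
    congr 1
    refine Finset.sum_congr rfl fun i hi => ?_
    rw [hσl, if_neg (Finset.ne_of_mem_erase hi)]
  have h4 : (X'.map RatFunc.C + (RatFunc.X : RatFunc K) • (cst K (x j)).map RatFunc.C)
        * c.map (σ j)
      + c.map (σ j) * (X'.map RatFunc.C + (RatFunc.X : RatFunc K) • (cst K (x j)).map RatFunc.C)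
      = (cst K α).map RatFunc.C := by
    rw [← hX, ← hcst, ← hc, Matrix.map_add _ (map_add (σ j)), Matrix.map_mul, Matrix.map_mul]
  have h5 := pencil X' (cst K (x j)) (cst K α) h1 hxx h2 h3 hαx hnil' (c.map (σ j)) h4
  rw [← hcst, ← Matrix.map_mul] at h5
  have h6 : ((c * cst K (x j)).map (σ j)).trace = σ j (c * cst K (x j)).trace := by
    rw [Matrix.trace, Matrix.trace, map_sum]
    rfl
  rw [h6] at h5
  exact (map_eq_zero (σ j)).1 h5

/-- The value of `D` on constants. -/
theorem DD_cst (H : Dat k K J n lam θ x) (u : Matrix n n k) :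
    DD θ lam x (cst K u) = ∑ j, lam j • cst K ((1 + x j) * u * (1 + x j) - u) := by
  rw [DD_eq H, LinearMap.add_apply, LinearMap.add_apply, Lf_apply, Rr_apply, TT,
    LinearMap.sum_apply, XX, Finset.sum_mul, Finset.mul_sum, ← Finset.sum_add_distrib,
    ← Finset.sum_add_distrib]
  refine Finset.sum_congr rfl fun j _ => ?_
  rw [LinearMap.smul_apply, Module.End.mul_apply, Lf_apply, Rr_apply, smul_mul_assoc,
    mul_smul_comm, ← smul_add, ← smul_add, ← cst_mul, ← cst_mul, ← cst_mul, ← cst_add, ← cst_add]
  congr 2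
  noncomm_ring

/-- The trace functionals over `k`. -/
structure PTk (Λ : Set (Matrix n n k)) (ψ : Matrix n n k →ₗ[k] Matrix n n k) : Prop where
  left : ∀ v ∈ Λ, ∃ α ∈ Λ, ∀ u : Matrix n n k,
    LinearMap.trace k _ (ψ ∘ₗ (LinearMap.mulRight k v ∘ₗ LinearMap.mulLeft k u))
      = (α * u).trace
  right : ∀ v ∈ Λ, ∃ β ∈ Λ, ∀ u : Matrix n n k,
    LinearMap.trace k _ (ψ ∘ₗ (LinearMap.mulLeft k v ∘ₗ LinearMap.mulRight k u))
      = (β * u).trace

theorem extK_left (u : Matrix n n k) : extK K (LinearMap.mulLeft k u) = Lf (cst K u) := by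
  apply ext_cst (k := k)
  intro w
  rw [extK_cst, Lf_apply, ← cst_mul]
  rfl

theorem extK_right (u : Matrix n n k) : extK K (LinearMap.mulRight k u) = Rr (cst K u) := by
  apply ext_cst (k := k)
  intro w
  rw [extK_cst, Rr_apply, ← cst_mul]
  rfl

theorem PT_of_PTk {Λ : Set (Matrix n n k)} {ψ : Matrix n n k →ₗ[k] Matrix n n k}
    (h : PTk Λ ψ) : PT Λ (extK K ψ) := by
  constructor
  · intro v hv
    obtain ⟨α, hα, h1⟩ := h.left v hv
    refine ⟨α, hα, ?_⟩
    let f : Matrix n n K →ₗ[K] K :=
      { toFun := fun u => LinearMap.trace K _ (extK K ψ * (Rr (cst K v) * Lf u))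
        map_add' := fun a b => by rw [map_add, mul_add, mul_add, map_add]
        map_smul' := fun c a => by
          rw [Lf_smul, mul_smul_comm, mul_smul_comm, map_smul, RingHom.id_apply] }
    let g : Matrix n n K →ₗ[K] K :=
      { toFun := fun u => (cst K α * u).trace
        map_add' := fun a b => by rw [mul_add, Matrix.trace_add]
        map_smul' := fun c a => by
          rw [mul_smul_comm, Matrix.trace_smul, RingHom.id_apply] }
    have hfg : f = g := by
      apply ext_cst (k := k)
      intro u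
      change LinearMap.trace K _ (extK K ψ * (Rr (cst K v) * Lf (cst K u)))
        = (cst K α * cst K u).trace
      rw [← extK_left, ← extK_right, ← extK_comp, ← extK_comp, trace_extK, h1, ← cst_mul,
        cst_trace]
    exact fun u => LinearMap.congr_fun hfg u
  · intro v hv
    obtain ⟨α, hα, h1⟩ := h.right v hv
    refine ⟨α, hα, ?_⟩
    let f : Matrix n n K →ₗ[K] K :=
      { toFun := fun u => LinearMap.trace K _ (extK K ψ * (Lf (cst K v) * Rr u))
        map_add' := fun a b => by rw [Rr_add, mul_add, mul_add, map_add]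
        map_smul' := fun c a => by
          rw [Rr_smul, mul_smul_comm, mul_smul_comm, map_smul, RingHom.id_apply] }
    let g : Matrix n n K →ₗ[K] K :=
      { toFun := fun u => (cst K α * u).trace
        map_add' := fun a b => by rw [mul_add, Matrix.trace_add]
        map_smul' := fun c a => by
          rw [mul_smul_comm, Matrix.trace_smul, RingHom.id_apply] }
    have hfg : f = g := by
      apply ext_cst (k := k)
      intro u
      change LinearMap.trace K _ (extK K ψ * (Lf (cst K v) * Rr (cst K u)))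
        = (cst K α * cst K u).trace
      rw [← extK_left, ← extK_right, ← extK_comp, ← extK_comp, trace_extK, h1, ← cst_mul,
        cst_trace]
    exact fun u => LinearMap.congr_fun hfg u

/-- The theorem for matrices. -/
theorem four_dvd_k {k J n : Type} [Field k] [CharP k 2] [Fintype n] [DecidableEq n]
    [DecidableEq J] [Fintype J] (x : J → Matrix n n k) (hxx : ∀ j, x j * x j = 0)
    (c : J → k) (hc : 2 * (∑ j, c j • x j).rank + 1 = Fintype.card n)
    {Λ : Set (Matrix n n k)} (HΛ : Lam Λ x) (ψ : Matrix n n k →ₗ[k] Matrix n n k)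
    (Hψ : PTk Λ ψ) (hψψ : ψ ∘ₗ ψ = ψ)
    (hψx : ∀ j u, ψ ((1 + x j) * u * (1 + x j)) = (1 + x j) * ψ u * (1 + x j))
    {a : Matrix n n k} (ha : a ∈ Λ) (hnil : IsNilpotent a) (hψ1 : ψ 1 = a) :
    4 ∣ Module.finrank k (LinearMap.range ψ) := by
  obtain ⟨K, iK, iA, lam, θ, σ, hmul, hcst, hlam, hσc, hσl, hev⟩ := exists_gfield k J
  have hchar : CharP K 2 := charP_of_injective_algebraMap (algebraMap k K).injective 2
  have two : ∀ a : K, a + a = 0 := fun a => CharTwo.add_self_eq_zero a
  have H : Dat k K J n lam θ x :=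
    ⟨hmul, hcst, hlam, hxx, fun i j => HΛ.comm _ (HΛ.mem i) j, two⟩
  -- the rank
  have hr1 : (∑ j, c j • x j).rank ≤ (XX lam x).rank := rank_generic lam hev x c
  have hr2 : 2 * (XX lam x).rank ≤ Fintype.card n := by
    have h1 : LinearMap.range (XX lam x).mulVecLin ≤ LinearMap.ker (XX lam x).mulVecLin := by
      rintro _ ⟨v, rfl⟩
      rw [LinearMap.mem_ker, Matrix.mulVecLin_apply, Matrix.mulVecLin_apply, Matrix.mulVec_mulVec,
        XX_sq H, Matrix.zero_mulVec]
    have h2 := Submodule.finrank_mono h1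
    have h3 := (XX lam x).mulVecLin.finrank_range_add_finrank_ker
    rw [Module.finrank_fintype_fun_eq_card] at h3
    rw [Matrix.rank]
    omega
  have hcard : Fintype.card n = 2 * (XX lam x).rank + 1 := by omega
  obtain ⟨h, N, m, hm⟩ := exists_NF (XX_sq H) hcard
  have hodd : ((Fintype.card n : ℕ) : K) = 1 := by
    rw [hcard, Nat.cast_add, Nat.cast_mul, Nat.cast_two, Nat.cast_one, CharTwo.two_eq_zero,
      zero_mul, zero_add]
  have hθn : ∀ j (m : ℕ), θ j (m : K) = 0 := by
    intro j m
    have := hcst j (m : k)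
    rwa [map_natCast] at this
  have hφφ : extK K ψ * extK K ψ = extK K ψ := by rw [← extK_comp, hψψ]
  have hφD : extK K ψ * DD θ lam x = DD θ lam x * extK K ψ := by
    apply ext_cst (k := k)
    intro u
    rw [Module.End.mul_apply, Module.End.mul_apply, extK_cst, DD_cst H, DD_cst H, map_sum]
    refine Finset.sum_congr rfl fun j _ => ?_
    rw [map_smul, extK_cst, map_sub, hψx]
  have key := four_dvd H N hodd HΛ (PT_of_PTk (K := K) Hψ) hchar
    (fun j => by rw [hm, hθn]) (fun α hα hn c hc j =>
      HL_of_pencil H hchar σ hσc hσl (HΛ.comm α hα) hn c hc j) hφφ hφD ha hnil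
    (by rw [← cst_one (k := k), extK_cst, hψ1])
  rwa [finrank_extK] at key

end H77GJ
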