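import Pool.Agent.Helper77.GJ.Twist
import Pool.Agent.Helper77.CI.Alg

/-!
# MP_8096dd_al : generic Jordan type, the operators over the generic field
-/

namespace H77GJ

open Matrix Module

variable {k K J n : Type} [Field k] [Field K] [Algebra k K] [Fintype n] [DecidableEq n]

/-- Matrices over `k` as matrices over `K`. -/
abbrev cst (K : Type) [Field K] [Algebra k K] (a : Matrix n n k) : Matrix n n K :=
  a.map (algebraMap k K)

/-- Entrywise derivations. -/
abbrev dM (θ : J → K →+ K) (j : J) : Matrix n n K →+ Matrix n n K := (θ j).mapMatrix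

/-- Left multiplication. -/
def Lf : Matrix n n K →+* Module.End K (Matrix n n K) where
  toFun u := LinearMap.mulLeft K u
  map_one' := LinearMap.ext fun w => one_mul w
  map_mul' u v := LinearMap.ext fun w => mul_assoc u v w
  map_zero' := LinearMap.ext fun w => zero_mul w
  map_add' u v := LinearMap.ext fun w => add_mul u v w

/-- Right multiplication. -/
def Rf : (Matrix n n K)ᵐᵒᵖ →+* Module.End K (Matrix n n K) where
  toFun u := LinearMap.mulRight K u.unop
  map_one' := LinearMap.ext fun w => mul_one w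
  map_mul' u v := LinearMap.ext fun w => (mul_assoc w v.unop u.unop).symm
  map_zero' := LinearMap.ext fun w => mul_zero w
  map_add' u v := LinearMap.ext fun w => mul_add w u.unop v.unop

/-- Derivations on the opposite ring. -/
def dop (θ : J → K →+ K) (j : J) : (Matrix n n K)ᵐᵒᵖ →+ (Matrix n n K)ᵐᵒᵖ where
  toFun u := MulOpposite.op (dM θ j u.unop)
  map_zero' := by simp
  map_add' u v := by rw [MulOpposite.unop_add, map_add, MulOpposite.op_add]

/-- Right multiplication by `v`. -/
abbrev Rr (v : Matrix n n K) : Module.End K (Matrix n n K) := Rf (MulOpposite.op v)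

theorem Lf_apply (u w : Matrix n n K) : Lf u w = u * w := rfl

theorem Rr_apply (v w : Matrix n n K) : Rr v w = w * v := rfl

theorem Rr_mul (u v : Matrix n n K) : Rr u * Rr v = Rr (v * u) :=
  LinearMap.ext fun w => mul_assoc w v u

theorem Rr_add (u v : Matrix n n K) : Rr (u + v) = Rr u + Rr v :=
  LinearMap.ext fun w => mul_add w u v

theorem Lf_comm_Rr (u v : Matrix n n K) : Lf u * Rr v = Rr v * Lf u :=
  LinearMap.ext fun w => (mul_assoc u w v).symm

theorem Lf_smul (c : K) (u : Matrix n n K) : Lf (c • u) = c • Lf u :=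
  LinearMap.ext fun w => smul_mul_assoc c u w

theorem Rr_smul (c : K) (u : Matrix n n K) : Rr (c • u) = c • Rr u :=
  LinearMap.ext fun w => mul_smul_comm c w u

/-- The hypotheses on `K`, the variables `lam j`, the derivations `θ j` and the matrices `x j`. -/
structure Dat (k K J n : Type) [Field k] [Field K] [Algebra k K] [Fintype n] [DecidableEq n]
    [DecidableEq J] (lam : J → K) (θ : J → K →+ K) (x : J → Matrix n n k) : Prop where
  mul : ∀ j a b, θ j (a * b) = θ j a * b + a * θ j b
  cst : ∀ j (c : k), θ j (algebraMap k K c) = 0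
  lam : ∀ i j, θ j (lam i) = if i = j then lam i else 0
  xx : ∀ j, x j * x j = 0
  xc : ∀ i j, x i * x j = x j * x i
  two : ∀ a : K, a + a = 0

section

variable [DecidableEq J] {lam : J → K} {θ : J → K →+ K} {x : J → Matrix n n k}

theorem Dat.twoM (H : Dat k K J n lam θ x) (a : Matrix n n K) : a + a = 0 := by
  ext i j
  exact H.two (a i j)

theorem Dat.twoB (H : Dat k K J n lam θ x) (a : Module.End K (Matrix n n K)) : a + a = 0 := by
  refine LinearMap.ext fun w => ?_
  exact H.twoM (a w)

theorem dM_mul (H : Dat k K J n lam θ x) (j : J) (a b : Matrix n n K) :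
    dM θ j (a * b) = dM θ j a * b + a * dM θ j b := by
  ext i l
  simp only [dM, AddMonoidHom.mapMatrix_apply, Matrix.map_apply, Matrix.mul_apply, map_sum,
    Matrix.add_apply, H.mul, Finset.sum_add_distrib]

theorem dM_smul (H : Dat k K J n lam θ x) (j : J) (c : K) (b : Matrix n n K) :
    dM θ j (c • b) = θ j c • b + c • dM θ j b := by
  ext i l
  simp only [dM, AddMonoidHom.mapMatrix_apply, Matrix.map_apply, Matrix.smul_apply, smul_eq_mul,
    Matrix.add_apply, H.mul]

theorem dM_cst (H : Dat k K J n lam θ x) (j : J) (a : Matrix n n k) : dM θ j (cst K a) = 0 := by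
  ext i l
  simp only [dM, AddMonoidHom.mapMatrix_apply, Matrix.map_apply, Matrix.zero_apply, H.cst]

theorem trace_dM (j : J) (a : Matrix n n K) : (dM θ j a).trace = θ j a.trace := by
  simp only [Matrix.trace, dM, AddMonoidHom.mapMatrix_apply, Matrix.map_apply, Matrix.diag_apply,
    map_sum]

theorem dM_mul_cst (H : Dat k K J n lam θ x) (j : J) (u : Matrix n n K) (a : Matrix n n k) :
    dM θ j (u * cst K a) = dM θ j u * cst K a := by
  rw [dM_mul H, dM_cst H, mul_zero, add_zero]

theorem dM_cst_mul (H : Dat k K J n lam θ x) (j : J) (u : Matrix n n K) (a : Matrix n n k) :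
    dM θ j (cst K a * u) = cst K a * dM θ j u := by
  rw [dM_mul H, dM_cst H, zero_mul, zero_add]

theorem cst_mul (a b : Matrix n n k) : cst K (a * b) = cst K a * cst K b := Matrix.map_mul

theorem cst_one : cst K (1 : Matrix n n k) = 1 := by simp [cst]

variable [Fintype J]

/-- The generic element. -/
def XX (lam : J → K) (x : J → Matrix n n k) : Matrix n n K := ∑ j, lam j • cst K (x j)

theorem dM_XX (H : Dat k K J n lam θ x) (j : J) :
    dM θ j (XX lam x) = lam j • cst K (x j) := by
  rw [XX, map_sum]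
  rw [Finset.sum_eq_single j]
  · rw [dM_smul H, dM_cst H, smul_zero, add_zero, H.lam, if_pos rfl]
  · intro i _ hij
    rw [dM_smul H, dM_cst H, smul_zero, add_zero, H.lam, if_neg hij, zero_smul]
  · intro h
    exact absurd (Finset.mem_univ j) h

theorem XX_comm {a : Matrix n n k} (ha : ∀ j, a * x j = x j * a) :
    cst K a * XX lam x = XX lam x * cst K a := by
  rw [XX, Finset.mul_sum, Finset.sum_mul]
  refine Finset.sum_congr rfl fun j _ => ?_
  rw [mul_smul_comm, smul_mul_assoc, ← cst_mul, ha, cst_mul]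

theorem XX_sq (H : Dat k K J n lam θ x) : XX lam x * XX lam x = 0 := by
  rw [XX, Finset.sum_mul_sum]
  have h1 : ∀ i j, (lam i • cst K (x i)) * (lam j • cst K (x j))
      = (lam i * lam j) • cst K (x i * x j) := by
    intro i j
    rw [smul_mul_smul_comm, cst_mul]
  simp only [h1]
  rw [← Finset.sum_product']
  refine Finset.sum_involution (fun p _ => (p.2, p.1)) ?_ ?_ ?_ ?_
  · rintro ⟨i, j⟩ _
    simp only
    rw [H.xc j i, mul_comm (lam j)]
    exact H.twoM _
  · rintro ⟨i, j⟩ _ hne heq
    simp only [Prod.mk.injEq] at heq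
    obtain ⟨rfl, -⟩ := heq
    apply hne
    simp only [H.xx]
    simp [cst]
  · intro p _
    exact Finset.mem_univ _
  · rintro ⟨i, j⟩ _
    rfl

/-- The elements of square zero, on the right. -/
abbrev zL (K : Type) [Field K] [Algebra k K] (x : J → Matrix n n k) (j : J) :
    Module.End K (Matrix n n K) := Rr (cst K (x j))

/-- The elements of square zero, on the left. -/
abbrev zR (K : Type) [Field K] [Algebra k K] (x : J → Matrix n n k) (j : J) :
    Module.End K (Matrix n n K) := Lf (cst K (x j))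

/-- Twisted left multiplication. -/
noncomputable def TL (θ : J → K →+ K) (x : J → Matrix n n k) (u : Matrix n n K) :
    Module.End K (Matrix n n K) := tws (dM θ) (zL K x) Lf Finset.univ.toList u

/-- Twisted right multiplication. -/
noncomputable def TR (θ : J → K →+ K) (x : J → Matrix n n k) (u : Matrix n n K) :
    Module.End K (Matrix n n K) :=
  tws (dop θ) (zR K x) Rf Finset.univ.toList (MulOpposite.op u)

/-- The operator `D`. -/
noncomputable def DD (θ : J → K →+ K) (lam : J → K) (x : J → Matrix n n k) :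
    Module.End K (Matrix n n K) := TL θ x (XX lam x) + Rr (XX lam x)

/-- The operator `w ↦ ∑ lam_j x_j w x_j`. -/
noncomputable def TT (lam : J → K) (x : J → Matrix n n k) : Module.End K (Matrix n n K) :=
  ∑ j, lam j • (Lf (cst K (x j)) * Rr (cst K (x j)))

theorem zL_sq (H : Dat k K J n lam θ x) (j : J) : zL K x j * zL K x j = 0 := by
  rw [Rr_mul, ← cst_mul, H.xx]
  refine LinearMap.ext fun w => ?_
  rw [Rr_apply]
  simp [cst]

theorem zR_sq (H : Dat k K J n lam θ x) (j : J) : zR K x j * zR K x j = 0 := by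
  rw [← map_mul, ← cst_mul, H.xx]
  simp [cst]

theorem zL_comm (H : Dat k K J n lam θ x) (i j : J) : zL K x i * zL K x j = zL K x j * zL K x i := by
  rw [Rr_mul, Rr_mul, ← cst_mul, ← cst_mul, H.xc]

theorem zR_comm (H : Dat k K J n lam θ x) (i j : J) : zR K x i * zR K x j = zR K x j * zR K x i := by
  rw [← map_mul, ← map_mul, ← cst_mul, ← cst_mul, H.xc]

theorem TL_X (H : Dat k K J n lam θ x) : TL θ x (XX lam x) = Lf (XX lam x) + TT lam x := by
  rw [TL, tws_first Finset.univ.toList (Finset.nodup_toList _) (XX lam x)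
    (fun j => lam j • cst K (x j)) (fun j => dM_XX H j) ?_, Finset.sum_map_toList]
  · congr 1
    refine Finset.sum_congr rfl fun j _ => ?_
    rw [Lf_smul, mul_smul_comm, Lf_comm_Rr]
  · intro i j hij
    rw [dM_smul H, dM_cst H, smul_zero, add_zero, H.lam, if_neg hij.symm, zero_smul]

theorem TR_X (H : Dat k K J n lam θ x) : TR θ x (XX lam x) = Rr (XX lam x) + TT lam x := by
  have h1 : ∀ j, dop θ j (MulOpposite.op (XX lam x))
      = MulOpposite.op (lam j • cst K (x j)) := by
    intro j
    change MulOpposite.op (dM θ j (XX lam x)) = _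
    rw [dM_XX H]
  have h2 : ∀ i j, i ≠ j → dop θ i (MulOpposite.op (lam j • cst K (x j))) = 0 := by
    intro i j hij
    change MulOpposite.op (dM θ i (lam j • cst K (x j))) = 0
    rw [dM_smul H, dM_cst H, smul_zero, add_zero, H.lam, if_neg hij.symm, zero_smul]
    rfl
  rw [TR, tws_first Finset.univ.toList (Finset.nodup_toList _) (MulOpposite.op (XX lam x))
    (fun j => MulOpposite.op (lam j • cst K (x j))) h1 h2, Finset.sum_map_toList]
  congr 1
  refine Finset.sum_congr rfl fun j _ => ?_
  change Lf (cst K (x j)) * Rr (lam j • cst K (x j)) = _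
  rw [Rr_smul, mul_smul_comm]

theorem DD_eq (H : Dat k K J n lam θ x) :
    DD θ lam x = Lf (XX lam x) + Rr (XX lam x) + TT lam x := by
  rw [DD, TL_X H]
  abel

theorem DD_eq' (H : Dat k K J n lam θ x) : DD θ lam x = Lf (XX lam x) + TR θ x (XX lam x) := by
  rw [DD_eq H, TR_X H]
  abel

theorem TL_mul (H : Dat k K J n lam θ x) (u v : Matrix n n K) :
    TL θ x (u * v) = TL θ x u * TL θ x v :=
  tws_mul (dM_mul H) (zL_sq H) (zL_comm H) (fun _ u => (Lf_comm_Rr u _).symm) _ u v

theorem TR_mul (H : Dat k K J n lam θ x) (u v : Matrix n n K) :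
    TR θ x (u * v) = TR θ x v * TR θ x u := by
  refine tws_mul (R := (Matrix n n K)ᵐᵒᵖ) (d := dop θ) (z := zR K x) (f := Rf) ?_ (zR_sq H)
    (zR_comm H) (fun _ u => Lf_comm_Rr _ u.unop) _ (MulOpposite.op v) (MulOpposite.op u)
  intro j a b
  change MulOpposite.op (dM θ j (b.unop * a.unop)) = _
  rw [dM_mul H, add_comm]
  rfl

theorem TL_add (u v : Matrix n n K) : TL θ x (u + v) = TL θ x u + TL θ x v := tws_add _ u v

theorem TR_add (u v : Matrix n n K) : TR θ x (u + v) = TR θ x u + TR θ x v :=
  tws_add _ (MulOpposite.op u) (MulOpposite.op v)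

theorem TL_cst (H : Dat k K J n lam θ x) (a : Matrix n n k) : TL θ x (cst K a) = Lf (cst K a) :=
  tws_const _ _ fun j _ => dM_cst H j a

theorem Rr_comm_TL (v : Matrix n n K) (hv : ∀ j, v * cst K (x j) = cst K (x j) * v)
    (u : Matrix n n K) : Rr v * TL θ x u = TL θ x u * Rr v :=
  tws_comm (fun u => (Lf_comm_Rr u v).symm)
    (fun j => by rw [Rr_mul, Rr_mul, hv]) _ u

theorem Lf_comm_TR (v : Matrix n n K) (hv : ∀ j, v * cst K (x j) = cst K (x j) * v)
    (u : Matrix n n K) : Lf v * TR θ x u = TR θ x u * Lf v :=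
  tws_comm (fun u => Lf_comm_Rr v u.unop)
    (fun j => by rw [← map_mul, ← map_mul, hv]) _ (MulOpposite.op u)

theorem X_comm (H : Dat k K J n lam θ x) (j : J) :
    XX lam x * cst K (x j) = cst K (x j) * XX lam x :=
  (XX_comm fun i => H.xc j i).symm

theorem DD_TL (H : Dat k K J n lam θ x) (u : Matrix n n K) :
    DD θ lam x * TL θ x u + TL θ x u * DD θ lam x = TL θ x (XX lam x * u + u * XX lam x) := by
  rw [DD, add_mul, mul_add, Rr_comm_TL _ (X_comm H), TL_add, TL_mul H, TL_mul H]
  have := H.twoB (TL θ x u * Rr (XX lam x))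
  calc _ = TL θ x (XX lam x) * TL θ x u + TL θ x u * TL θ x (XX lam x)
        + (TL θ x u * Rr (XX lam x) + TL θ x u * Rr (XX lam x)) := by abel
    _ = _ := by rw [this, add_zero]

theorem DD_TR (H : Dat k K J n lam θ x) (u : Matrix n n K) :
    DD θ lam x * TR θ x u + TR θ x u * DD θ lam x = TR θ x (XX lam x * u + u * XX lam x) := by
  rw [DD_eq' H, add_mul, mul_add, Lf_comm_TR _ (X_comm H), TR_add, TR_mul H, TR_mul H]
  have := H.twoB (TR θ x u * Lf (XX lam x))
  calc _ = TR θ x u * TR θ x (XX lam x) + TR θ x (XX lam x) * TR θ x u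
        + (TR θ x u * Lf (XX lam x) + TR θ x u * Lf (XX lam x)) := by abel
    _ = _ := by rw [this, add_zero]

theorem DD_comm_Rr (H : Dat k K J n lam θ x) {v : Matrix n n k} (hv : ∀ j, v * x j = x j * v) :
    DD θ lam x * Rr (cst K v) = Rr (cst K v) * DD θ lam x := by
  have h1 : ∀ j, cst K v * cst K (x j) = cst K (x j) * cst K v := fun j => by
    rw [← cst_mul, ← cst_mul, hv]
  rw [DD, add_mul, mul_add, Rr_comm_TL _ h1, Rr_mul, Rr_mul, XX_comm hv]

theorem DD_sq (H : Dat k K J n lam θ x) : DD θ lam x * DD θ lam x = 0 := by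
  have h1 : DD θ lam x * DD θ lam x
      = TL θ x (XX lam x) * TL θ x (XX lam x) + (TL θ x (XX lam x) * Rr (XX lam x)
        + Rr (XX lam x) * TL θ x (XX lam x)) + Rr (XX lam x) * Rr (XX lam x) := by
    rw [DD, add_mul, mul_add, mul_add]
    abel
  rw [h1, ← TL_mul H, XX_sq H, Rr_comm_TL _ (X_comm H), H.twoB, Rr_mul, XX_sq H]
  have h2 : TL θ x (0 : Matrix n n K) = 0 := tws_zero _
  have h3 : Rr (0 : Matrix n n K) = 0 := LinearMap.ext fun w => mul_zero w
  rw [h2, h3, add_zero, add_zero]

end

end H77GJ
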