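import Pool.Agent.Helper77.GJ.KDefs

/-!
# MP_8096dd_al : generic Jordan type, exactness of `D`
-/

namespace H77GJ

open Matrix Module

variable {k K J n : Type} [Field k] [Field K] [Algebra k K] [Fintype n] [DecidableEq n]
variable [DecidableEq J] {lam : J → K} {θ : J → K →+ K} {x : J → Matrix n n k}

/-- One twisting step on matrices. -/
def nu (θ : J → K →+ K) (x : J → Matrix n n k) (j : J) (w : Matrix n n K) : Matrix n n K :=
  w + dM θ j w * cst K (x j)

theorem nu_nu (H : Dat k K J n lam θ x) (j : J) (w : Matrix n n K) :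
    nu θ x j (nu θ x j w) = w := by
  simp only [nu, map_add, dM_mul_cst H]
  rw [add_mul, mul_assoc, ← cst_mul, H.xx]
  have h0 : cst K (0 : Matrix n n k) = 0 := by simp [cst]
  rw [h0, mul_zero, add_zero, add_assoc, H.twoM, add_zero]

/-- The twisting map along a list. -/
def iotaL (θ : J → K →+ K) (x : J → Matrix n n k) (l : List J) (w : Matrix n n K) :
    Matrix n n K := tws (dM θ) (zL K x) Lf l w 1

theorem iotaL_nil (w : Matrix n n K) : iotaL θ x [] w = w := mul_one w

theorem iotaL_cons (j : J) (l : List J) (w : Matrix n n K) :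
    iotaL θ x (j :: l) w = iotaL θ x l w + iotaL θ x l (dM θ j w) * cst K (x j) := rfl

theorem iotaL_add (l : List J) (v w : Matrix n n K) :
    iotaL θ x l (v + w) = iotaL θ x l v + iotaL θ x l w := by
  rw [iotaL, tws_add]
  rfl

theorem iotaL_mul_cst (H : Dat k K J n lam θ x) (l : List J) (w : Matrix n n K) {a : Matrix n n k}
    (ha : ∀ j, a * x j = x j * a) :
    iotaL θ x l (w * cst K a) = iotaL θ x l w * cst K a := by
  induction l generalizing w with
  | nil => rw [iotaL_nil, iotaL_nil]
  | cons j l ih =>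
    rw [iotaL_cons, iotaL_cons, ih, dM_mul_cst H, ih, add_mul, mul_assoc, mul_assoc, ← cst_mul,
      ← cst_mul, ha]

theorem iotaL_cons' (H : Dat k K J n lam θ x) (j : J) (l : List J) (w : Matrix n n K) :
    iotaL θ x (j :: l) w = iotaL θ x l (nu θ x j w) := by
  rw [iotaL_cons, nu, iotaL_add, iotaL_mul_cst H l _ (fun i => H.xc j i)]

theorem iotaL_surj (H : Dat k K J n lam θ x) (l : List J) (w : Matrix n n K) :
    ∃ v, iotaL θ x l v = w := by
  induction l with
  | nil => exact ⟨w, iotaL_nil w⟩
  | cons j l ih =>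
    obtain ⟨v, hv⟩ := ih
    exact ⟨nu θ x j v, by rw [iotaL_cons' H, nu_nu H, hv]⟩

theorem iotaL_inj (H : Dat k K J n lam θ x) (l : List J) {v w : Matrix n n K}
    (h : iotaL θ x l v = iotaL θ x l w) : v = w := by
  induction l generalizing v w with
  | nil =>
    rwa [iotaL_nil, iotaL_nil] at h
  | cons j l ih =>
    rw [iotaL_cons' H, iotaL_cons' H] at h
    have := ih h
    rw [← nu_nu H j v, this, nu_nu H]

theorem iotaL_cst (H : Dat k K J n lam θ x) (l : List J) (a : Matrix n n k) :
    iotaL θ x l (cst K a) = cst K a := by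
  rw [iotaL, tws_const l _ fun j _ => dM_cst H j a, Lf_apply, mul_one]

variable [Fintype J]

/-- The twisting map. -/
noncomputable def iota (θ : J → K →+ K) (x : J → Matrix n n k) (w : Matrix n n K) :
    Matrix n n K := TL θ x w 1

theorem iota_eq (w : Matrix n n K) : iota θ x w = iotaL θ x Finset.univ.toList w := rfl

theorem DD_iota (H : Dat k K J n lam θ x) (w : Matrix n n K) :
    DD θ lam x (iota θ x w) = iota θ x (XX lam x * w + w * XX lam x) := by
  have h1 := LinearMap.congr_fun (DD_TL H w) 1
  rw [LinearMap.add_apply, Module.End.mul_apply, Module.End.mul_apply] at h1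
  have h2 : TL θ x w (DD θ lam x 1) = 0 := by
    have : DD θ lam x (1 : Matrix n n K) = 0 := by
      rw [DD_eq H, LinearMap.add_apply, LinearMap.add_apply, Lf_apply, Rr_apply, mul_one, one_mul,
        H.twoM, zero_add, TT, LinearMap.sum_apply]
      refine Finset.sum_eq_zero fun j _ => ?_
      rw [LinearMap.smul_apply, Module.End.mul_apply, Rr_apply, Lf_apply, one_mul, ← cst_mul, H.xx]
      simp [cst]
    rw [this, map_zero]
  rw [h2, add_zero] at h1
  exact h1

theorem DD_mul_cst (H : Dat k K J n lam θ x) {v : Matrix n n k} (hv : ∀ j, v * x j = x j * v)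
    (w : Matrix n n K) : DD θ lam x (w * cst K v) = DD θ lam x w * cst K v :=
  LinearMap.congr_fun (DD_comm_Rr H hv) w

/-- The elements `x_j b` are in the image of `D`. -/
theorem xb_mem (H : Dat k K J n lam θ x) {j : J} {e : Matrix n n K}
    (he : XX lam x * e + e * XX lam x = cst K (x j)) {b : Matrix n n k}
    (hb : ∀ j, b * x j = x j * b) :
    cst K (x j * b) ∈ LinearMap.range (DD θ lam x) := by
  refine ⟨iota θ x e * cst K b, ?_⟩
  rw [DD_mul_cst H hb, DD_iota H, he, iota_eq, iotaL_cst H, ← cst_mul]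

theorem iotaL_scalar (H : Dat k K J n lam θ x) {e : J → Matrix n n K}
    (he : ∀ j, XX lam x * e j + e j * XX lam x = cst K (x j)) (l : List J) (τ : K)
    (b : Matrix n n k) (hb : ∀ j, b * x j = x j * b) :
    iotaL θ x l (τ • 1) * cst K b + τ • cst K b ∈ LinearMap.range (DD θ lam x) := by
  induction l generalizing τ b with
  | nil =>
    rw [iotaL_nil, smul_mul_assoc, one_mul, H.twoM]
    exact Submodule.zero_mem _
  | cons j l ih =>
    have h1 : dM θ j (τ • (1 : Matrix n n K)) = θ j τ • 1 := by
      have h2 : dM θ j (1 : Matrix n n K) = 0 := by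
        rw [← cst_one (k := k), dM_cst H]
      rw [dM_smul H, h2, smul_zero, add_zero]
    have hxb : ∀ i, (x j * b) * x i = x i * (x j * b) := by
      intro i
      rw [mul_assoc, hb, ← mul_assoc, H.xc, mul_assoc]
    have h3 := ih τ b hb
    have h4 := ih (θ j τ) (x j * b) hxb
    have h5 : (θ j τ) • cst K (x j * b) ∈ LinearMap.range (DD θ lam x) :=
      Submodule.smul_mem _ _ (xb_mem H (he j) hb)
    rw [iotaL_cons, h1, add_mul, mul_assoc, ← cst_mul]
    have h6 := Submodule.add_mem _ h3 (Submodule.add_mem _ h4 h5)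
    have h7 := H.twoM (θ j τ • cst K (x j * b))
    have h8 : iotaL θ x l (τ • 1) * cst K b + τ • cst K b
        + (iotaL θ x l (θ j τ • 1) * cst K (x j * b) + θ j τ • cst K (x j * b)
          + θ j τ • cst K (x j * b))
        = iotaL θ x l (τ • 1) * cst K b + iotaL θ x l (θ j τ • 1) * cst K (x j * b)
          + τ • cst K b := by
      rw [add_assoc (iotaL θ x l (θ j τ • 1) * cst K (x j * b)), h7, add_zero]
      abel
    rwa [h8] at h6

/-- The normal form of `X`: `h` is a generalised inverse and `π = 1 - X h - h X` has rank one. -/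
structure NF (X h : Matrix n n K) : Prop where
  XX : X * X = 0
  XhX : X * h * X = X
  hXh : h * X * h = h
  hh : h * h = 0
  one : ∀ u, (1 - X * h - h * X) * u * (1 - X * h - h * X)
    = ((1 - X * h - h * X) * u).trace • (1 - X * h - h * X)

/-- Exactness for the commutator with `X`. -/
theorem lie_exact (h2 : ∀ a : Matrix n n K, a + a = 0) {X h : Matrix n n K} (N : NF X h)
    {u : Matrix n n K} (hu : X * u = u * X) :
    ∃ (τ : K) (v : Matrix n n K), u = τ • 1 + (X * v + v * X) := by
  set p := 1 - X * h - h * X with hp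
  have hXp : X * p = 0 := by
    rw [hp, mul_sub, mul_sub, mul_one, ← mul_assoc, ← mul_assoc, N.XX, zero_mul, sub_zero, N.XhX,
      sub_self]
  have hpX : p * X = 0 := by
    rw [hp, sub_mul, sub_mul, one_mul, N.XhX, mul_assoc, N.XX, mul_zero, sub_zero, sub_self]
  set τ := (p * u).trace with hτ
  refine ⟨τ, h * u + p * u * h + τ • h, ?_⟩
  have h1 : X * (h * u + p * u * h + τ • h) = X * h * u + τ • (X * h) := by
    rw [mul_add, mul_add, ← mul_assoc, ← mul_assoc, ← mul_assoc, hXp, zero_mul, zero_mul, add_zero,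
      mul_smul_comm]
  have h3 : (h * u + p * u * h + τ • h) * X = h * X * u + p * u * (h * X) + τ • (h * X) := by
    rw [add_mul, add_mul, mul_assoc, ← hu, ← mul_assoc, mul_assoc (p * u), smul_mul_assoc]
  have h4 : p * u * p = τ • p := N.one u
  have h5 : p * u * p = p * u - p * u * (X * h) - p * u * (h * X) := by
    rw [hp, mul_sub, mul_sub, mul_one]
  have h6 : p * u * (X * h) = 0 := by
    rw [← mul_assoc, mul_assoc p, ← hu, ← mul_assoc, hpX, zero_mul, zero_mul]
  have h7 : p * u = u - X * h * u - h * X * u := by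
    rw [hp, sub_mul, sub_mul, one_mul]
  have h8 : τ • p = τ • (1 : Matrix n n K) - τ • (X * h) - τ • (h * X) := by
    rw [hp, smul_sub, smul_sub]
  have hneg : ∀ a : Matrix n n K, -a = a := fun a => neg_eq_of_add_eq_zero_left (h2 a)
  rw [h1, h3]
  rw [h6, sub_zero, h4, h8] at h5
  -- `u = τ + [X, ...]`
  have h9 : p * u * (h * X) = p * u - (τ • (1 : Matrix n n K) - τ • (X * h) - τ • (h * X)) := by
    rw [h5]; abel
  rw [h9, h7]
  simp only [sub_eq_add_neg, hneg]
  have e1 := h2 (X * h * u)
  have e2 := h2 (h * X * u)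
  have e3 := h2 (τ • (X * h))
  have e4 := h2 (τ • (h * X))
  have e5 := h2 (τ • (1 : Matrix n n K))
  calc u = u + (X * h * u + X * h * u) + (h * X * u + h * X * u)
        + (τ • (X * h) + τ • (X * h)) + (τ • (h * X) + τ • (h * X)) + (τ • 1 + τ • 1) := by
        rw [e1, e2, e3, e4, e5]; simp
    _ = _ := by abel

/-- Nilpotent elements commuting with `X` are commutators, in the case of odd size. -/
theorem nil_comm (h2 : ∀ a : Matrix n n K, a + a = 0) {X h : Matrix n n K} (N : NF X h)
    (hodd : ((Fintype.card n : ℕ) : K) = 1) {u : Matrix n n K} (hu : X * u = u * X)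
    (hnil : IsNilpotent u) : ∃ v : Matrix n n K, X * v + v * X = u := by
  obtain ⟨τ, v, hv⟩ := lie_exact h2 N hu
  have htr : u.trace = 0 := (Matrix.isNilpotent_trace_of_isNilpotent hnil).eq_zero
  have h3 : (X * v + v * X).trace = 0 := by
    rw [Matrix.trace_add, Matrix.trace_mul_comm v X, ← Matrix.trace_add, h2, Matrix.trace_zero]
  rw [hv, Matrix.trace_add, h3, add_zero, Matrix.trace_smul, Matrix.trace_one, hodd, smul_eq_mul,
    mul_one] at htr
  exact ⟨v, by rw [hv, htr, zero_smul, zero_add]⟩

/-- Exactness of `D` modulo the scalars. -/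
theorem DD_exact (H : Dat k K J n lam θ x) {h : Matrix n n K} (N : NF (XX lam x) h)
    (hodd : ((Fintype.card n : ℕ) : K) = 1) {w : Matrix n n K} (hw : DD θ lam x w = 0) :
    ∃ (τ : K) (v : Matrix n n K), w = τ • 1 + DD θ lam x v := by
  have he : ∀ j, ∃ e : Matrix n n K, XX lam x * e + e * XX lam x = cst K (x j) := by
    intro j
    refine nil_comm H.twoM N hodd (X_comm H j) ⟨2, ?_⟩
    rw [pow_two, ← cst_mul, H.xx]
    simp [cst]
  choose e he using he
  obtain ⟨u, hu⟩ := iotaL_surj H Finset.univ.toList w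
  have h1 : iotaL θ x Finset.univ.toList (XX lam x * u + u * XX lam x)
      = iotaL θ x Finset.univ.toList 0 := by
    rw [← iota_eq, ← DD_iota H, iota_eq, hu, hw]
    have : iotaL θ x Finset.univ.toList (0 : Matrix n n K) = 0 := by
      rw [iotaL, tws_zero]
      rfl
    rw [this]
  have h2 := iotaL_inj H _ h1
  have h3 : XX lam x * u = u * XX lam x := by
    have h4 := H.twoM (u * XX lam x)
    calc XX lam x * u = XX lam x * u + (u * XX lam x + u * XX lam x) := by rw [h4, add_zero]
      _ = (XX lam x * u + u * XX lam x) + u * XX lam x := by abel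
      _ = u * XX lam x := by rw [h2, zero_add]
  obtain ⟨τ, v, hv⟩ := lie_exact H.twoM N h3
  obtain ⟨y, hy⟩ := iotaL_scalar H he Finset.univ.toList τ (1 : Matrix n n k) (fun j => by
    rw [one_mul, mul_one])
  rw [cst_one, mul_one] at hy
  refine ⟨τ, y + iota θ x v, ?_⟩
  rw [map_add, DD_iota H, hy, ← hu, hv, iotaL_add, iota_eq]
  have h5 := H.twoM (τ • (1 : Matrix n n K))
  calc _ = iotaL θ x Finset.univ.toList (τ • 1)
        + iotaL θ x Finset.univ.toList (XX lam x * v + v * XX lam x) + (τ • 1 + τ • 1) := by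
        rw [h5, add_zero]
    _ = _ := by abel

end H77GJ
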