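import Mathlib

/-!
# MP_8096dd_al : generic Jordan type, the lattice lemma  (BLOCK GJ-C)

`O` is a principal ideal domain, `δ` a derivation of `O`, `α P = P α'`, and `α ^ N` maps `O ^ ρ`
into `P O ^ ρ` (for example `α ^ N = 0`).  Then `tr (α δ(P) P⁻¹)` is in `O`.

Proof, by induction on `N`.
* `N = 0`: `1 = P R`, so the inverse of `P` over `K` is the image of `R`.
* `N + 1`: let `B₁ = {v : O ^ ρ | α v ∈ P O ^ ρ}`.  It contains `P O ^ ρ` (since `α P = P α'`), hence it
  is free of rank `ρ`: `B₁ = P₁ O ^ ρ` with `det P₁ ≠ 0`, and `P = P₁ Q`, `α P₁ = P S = P₁ (Q S)`, and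
  `α ^ N = P₁ R₁` because `α (α ^ N v) ∈ P O ^ ρ`.  The induction hypothesis applies to `P₁` with
  `α'₁ = Q S`.  Now `δ P = δ P₁ Q + P₁ δ Q` and, over `K`,
  `tr (α δP P⁻¹) = tr (α δP₁ P₁⁻¹) + tr (α P₁ δQ Q⁻¹ P₁⁻¹)`, and the last trace is
  `tr (P₁ Q S δQ Q⁻¹ P₁⁻¹) = tr (S δQ)`, which is in `O`.
-/

namespace H77GJ

open Matrix

/-- Matrix factorisation through a submodule containing `P O ^ ρ`. -/
theorem exists_basis_matrix {O : Type} [CommRing O] [IsDomain O] [IsPrincipalIdealRing O] {ρ : ℕ}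
    (P : Matrix (Fin ρ) (Fin ρ) O) (hP : P.det ≠ 0) (B : Submodule O (Fin ρ → O))
    (hB : LinearMap.range P.mulVecLin ≤ B) :
    ∃ P₁ : Matrix (Fin ρ) (Fin ρ) O, (∀ j, P₁.col j ∈ B) ∧
      ∀ M : Matrix (Fin ρ) (Fin ρ) O, (∀ j, M.col j ∈ B) → ∃ Q, M = P₁ * Q := by
  classical
  obtain ⟨m, ⟨b⟩⟩ := Submodule.nonempty_basis_of_pid (Pi.basisFun O (Fin ρ)) B
  have hinj : Function.Injective P.mulVecLin := by
    intro v w h
    have h1 : P *ᵥ (v - w) = 0 := by
      rw [Matrix.mulVec_sub]; exact sub_eq_zero.2 h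
    exact sub_eq_zero.1 (Matrix.eq_zero_of_mulVec_eq_zero hP h1)
  have hr1 : Module.finrank O B = m := by
    rw [Module.finrank_eq_card_basis b, Fintype.card_fin]
  have hr2 : Module.finrank O (LinearMap.range P.mulVecLin) = ρ := by
    rw [LinearMap.finrank_range_of_inj hinj, Module.finrank_fin_fun]
  have hr3 : ρ ≤ m := by
    rw [← hr2, ← hr1]
    have : Module.Finite O B := Module.Finite.of_basis b
    exact Submodule.finrank_mono hB
  have hr4 : m ≤ ρ := by
    rw [← hr1]
    calc Module.finrank O B ≤ Module.finrank O (Fin ρ → O) := Submodule.finrank_le B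
      _ = ρ := Module.finrank_fin_fun O
  have hm : m = ρ := le_antisymm hr4 hr3
  subst hm
  refine ⟨Matrix.of fun i j => (b j : Fin m → O) i, fun j => (b j).2, ?_⟩
  intro M hM
  refine ⟨Matrix.of fun i j => b.repr ⟨M.col j, hM j⟩ i, ?_⟩
  ext i j
  have h1 := b.sum_repr ⟨M.col j, hM j⟩
  have h2 := congrArg (fun v : B => (v : Fin m → O) i) h1
  simp only [AddSubmonoidClass.coe_finsetSum, Submodule.coe_smul, Finset.sum_apply,
    Pi.smul_apply, smul_eq_mul] at h2
  rw [Matrix.mul_apply]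
  simp only [Matrix.of_apply]
  have h3 : M i j = M.col j i := rfl
  rw [h3, ← h2]
  exact Finset.sum_congr rfl fun l _ => mul_comm _ _

theorem lemC {O K : Type} [CommRing O] [IsDomain O] [IsPrincipalIdealRing O] [Field K]
    [Algebra O K] (hinj : Function.Injective (algebraMap O K)) (δ : O →+ O)
    (hδ : ∀ a b, δ (a * b) = δ a * b + a * δ b) {ρ : ℕ} :
    ∀ (N : ℕ) (P α α' R : Matrix (Fin ρ) (Fin ρ) O), P.det ≠ 0 → α * P = P * α' →
      α ^ N = P * R →
      ∃ o : O, (α.map (algebraMap O K) * (P.map δ).map (algebraMap O K)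
        * (P.map (algebraMap O K))⁻¹).trace = algebraMap O K o := by
  classical
  have htr : ∀ M : Matrix (Fin ρ) (Fin ρ) O,
      (M.map (algebraMap O K)).trace = algebraMap O K M.trace := by
    intro M
    simp [Matrix.trace]
  have hmm : ∀ M M' : Matrix (Fin ρ) (Fin ρ) O,
      (M * M').map (algebraMap O K) = M.map (algebraMap O K) * M'.map (algebraMap O K) :=
    fun M M' => Matrix.map_mul
  have hdet : ∀ M : Matrix (Fin ρ) (Fin ρ) O, M.det ≠ 0 →
      IsUnit (M.map (algebraMap O K)).det := by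
    intro M hM
    have : (M.map (algebraMap O K)).det = algebraMap O K M.det := by
      rw [← RingHom.mapMatrix_apply, ← RingHom.map_det]
    rw [this, isUnit_iff_ne_zero]
    intro h
    exact hM (hinj (by rw [h, map_zero]))
  have hδm : ∀ M M' : Matrix (Fin ρ) (Fin ρ) O,
      (M * M').map δ = M.map δ * M' + M * M'.map δ := by
    intro M M'
    ext i j
    simp only [Matrix.map_apply, Matrix.mul_apply, Matrix.add_apply, map_sum, hδ,
      Finset.sum_add_distrib]
  intro N
  induction N with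
  | zero =>
    intro P α α' R hP h1 h2
    rw [pow_zero] at h2
    have h3 : (P.map (algebraMap O K))⁻¹ = R.map (algebraMap O K) := by
      apply Matrix.inv_eq_right_inv
      rw [← hmm, ← h2]
      ext i j
      by_cases hij : i = j
      · subst hij; simp
      · simp [hij]
    refine ⟨(α * P.map δ * R).trace, ?_⟩
    rw [h3, ← htr, hmm, hmm]
  | succ N ih =>
    intro P α α' R hP h1 h2
    let B : Submodule O (Fin ρ → O) := (LinearMap.range P.mulVecLin).comap α.mulVecLin
    have hcol : ∀ (M M' : Matrix (Fin ρ) (Fin ρ) O) j, (M * M').col j = M *ᵥ (M'.col j) := by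
      intro M M' j
      ext i
      simp [Matrix.mul_apply, Matrix.mulVec, dotProduct]
    have hB : LinearMap.range P.mulVecLin ≤ B := by
      rintro v ⟨w, rfl⟩
      refine ⟨α' *ᵥ w, ?_⟩
      simp only [Matrix.mulVecLin_apply, Matrix.mulVec_mulVec]
      rw [h1]
    obtain ⟨P₁, hP₁, hfac⟩ := exists_basis_matrix P hP B hB
    -- a matrix whose columns lie in the range of P is a multiple of P
    have hfacP : ∀ M : Matrix (Fin ρ) (Fin ρ) O, (∀ j, M.col j ∈ LinearMap.range P.mulVecLin) →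
        ∃ S, M = P * S := by
      intro M hM
      choose w hw using hM
      refine ⟨Matrix.of fun i j => w j i, ?_⟩
      ext i j
      have := congrFun (hw j) i
      rw [Matrix.mul_apply]
      simp only [Matrix.mulVecLin_apply, Matrix.mulVec, dotProduct] at this
      exact this.symm
    obtain ⟨Q, hQ⟩ := hfac P (fun j => hB ⟨Pi.single j 1, by
      ext i; simp⟩)
    obtain ⟨S, hS⟩ := hfacP (α * P₁) (fun j => by
      rw [hcol]; exact hP₁ j)
    obtain ⟨R₁, hR₁⟩ := hfac (α ^ N) (fun j => by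
      refine ⟨R.col j, ?_⟩
      rw [Matrix.mulVecLin_apply, Matrix.mulVecLin_apply, ← hcol, ← hcol, ← h2, pow_succ'])
    have hdetP : P.det = P₁.det * Q.det := by
      conv_lhs => rw [hQ]
      rw [Matrix.det_mul]
    have hP₁d : P₁.det ≠ 0 := fun h => hP (by rw [hdetP, h, zero_mul])
    have hQd : Q.det ≠ 0 := fun h => hP (by rw [hdetP, h, mul_zero])
    have hαP₁ : α * P₁ = P₁ * (Q * S) := by
      rw [hS, ← Matrix.mul_assoc, ← hQ]
    obtain ⟨o, ho⟩ := ih P₁ α (Q * S) R₁ hP₁d hαP₁ hR₁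
    refine ⟨o + (S * Q.map δ).trace, ?_⟩
    have hPK : P.map (algebraMap O K) = P₁.map (algebraMap O K) * Q.map (algebraMap O K) := by
      rw [← hmm, ← hQ]
    have hδP : P.map δ = P₁.map δ * Q + P₁ * Q.map δ := by
      conv_lhs => rw [hQ]
      rw [hδm]
    have hadd : ∀ M M' : Matrix (Fin ρ) (Fin ρ) O,
        (M + M').map (algebraMap O K) = M.map (algebraMap O K) + M'.map (algebraMap O K) := by
      intro M M'; ext i j; simp
    have hαK : α.map (algebraMap O K) * P₁.map (algebraMap O K)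
        = P₁.map (algebraMap O K) * (Q.map (algebraMap O K) * S.map (algebraMap O K)) := by
      rw [← hmm, hαP₁, hmm, hmm]
    have hδPK : (P.map δ).map (algebraMap O K)
        = (P₁.map δ).map (algebraMap O K) * Q.map (algebraMap O K)
          + P₁.map (algebraMap O K) * (Q.map δ).map (algebraMap O K) := by
      rw [hδP, hadd, hmm, hmm]
    rw [map_add, ← ho, ← htr, hmm, hδPK, hPK, Matrix.mul_inv_rev]
    generalize α.map (algebraMap O K) = a at *
    generalize (P₁.map δ).map (algebraMap O K) = dp at *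
    generalize (Q.map δ).map (algebraMap O K) = dq at *
    generalize S.map (algebraMap O K) = s at *
    have hp1 := hdet P₁ hP₁d
    have hq1 := hdet Q hQd
    generalize P₁.map (algebraMap O K) = p at *
    generalize Q.map (algebraMap O K) = q at *
    have hqq : q * q⁻¹ = 1 := Matrix.mul_nonsing_inv _ hq1
    have hqq' : q⁻¹ * q = 1 := Matrix.nonsing_inv_mul _ hq1
    have hpp' : p⁻¹ * p = 1 := Matrix.nonsing_inv_mul _ hp1
    rw [Matrix.mul_add, Matrix.add_mul, Matrix.trace_add]
    congr 1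
    · congr 1
      calc a * (dp * q) * (q⁻¹ * p⁻¹) = a * dp * (q * q⁻¹) * p⁻¹ := by
            simp only [Matrix.mul_assoc]
        _ = a * dp * p⁻¹ := by rw [hqq, Matrix.mul_one]
    · have h5 : a * (p * dq) * (q⁻¹ * p⁻¹) = (p * q) * (s * dq * (q⁻¹ * p⁻¹)) := by
        calc a * (p * dq) * (q⁻¹ * p⁻¹) = (a * p) * dq * (q⁻¹ * p⁻¹) := by
              simp only [Matrix.mul_assoc]
          _ = _ := by rw [hαK]; simp only [Matrix.mul_assoc]
      rw [h5, Matrix.trace_mul_comm]
      congr 1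
      calc s * dq * (q⁻¹ * p⁻¹) * (p * q) = s * dq * (q⁻¹ * (p⁻¹ * p) * q) := by
            simp only [Matrix.mul_assoc]
        _ = s * dq := by rw [hpp', Matrix.mul_one, hqq', Matrix.mul_one]

end H77GJ
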