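import Pool.Agent.Helper77.GJ.KExact

/-!
# MP_8096dd_al : generic Jordan type, normal form of a square zero matrix
-/

namespace H77GJ

open Matrix Module

variable {K n : Type} [Field K] [Fintype n] [DecidableEq n]

/-- A square matrix of rank at most one. -/
theorem rank_one_form {p : Matrix n n K} (hp : p.rank ≤ 1) :
    ∃ a b : n → K, p = Matrix.vecMulVec a b := by
  rw [Matrix.rank] at hp
  obtain ⟨v, hv⟩ := finrank_le_one_iff.1 hp
  have h1 : ∀ j, ∃ c : K, ∀ i, p i j = c * (v : n → K) i := by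
    intro j
    obtain ⟨c, hc⟩ := hv ⟨p.mulVecLin (Pi.single j 1), _, rfl⟩
    refine ⟨c, fun i => ?_⟩
    have h2 := congrFun (congrArg Subtype.val hc) i
    simp only [Matrix.mulVecLin_apply, Matrix.mulVec_single_one] at h2
    exact h2.symm
  choose b hb using h1
  refine ⟨v, b, ?_⟩
  ext i j
  rw [Matrix.vecMulVec_apply, hb, mul_comm]

theorem rank_one_sandwich {p : Matrix n n K} (hp : p.rank ≤ 1) (u : Matrix n n K) :
    p * u * p = (p * u).trace • p := by
  obtain ⟨a, b, rfl⟩ := rank_one_form hp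
  ext i j
  rw [Matrix.vecMulVec_mul, Matrix.vecMulVec_mul_vecMulVec, Matrix.trace_vecMulVec]
  simp only [Matrix.smul_apply, Matrix.vecMulVec_apply, smul_eq_mul, Pi.smul_apply,
    dotProduct_comm a]
  ring

/-- Three orthogonal idempotents. -/
theorem rank_compl {X h : Matrix n n K} (hXX : X * X = 0) (hXhX : X * h * X = X)
    (hhXh : h * X * h = h) (hh : h * h = 0) (hc : Fintype.card n = 2 * X.rank + 1) :
    (1 - X * h - h * X).rank ≤ 1 := by
  set p := 1 - X * h - h * X with hp
  -- the two ranges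
  have h1 : (X * h).rank = X.rank := by
    refine le_antisymm (Matrix.rank_mul_le_left _ _) ?_
    calc X.rank = (X * h * X).rank := by rw [hXhX]
      _ ≤ (X * h).rank := Matrix.rank_mul_le_left _ _
  have h2 : (h * X).rank = X.rank := by
    refine le_antisymm (Matrix.rank_mul_le_right _ _) ?_
    calc X.rank = (X * (h * X)).rank := by rw [← mul_assoc, hXhX]
      _ ≤ (h * X).rank := Matrix.rank_mul_le_right _ _
  have hle : LinearMap.range (X * h).mulVecLin ⊔ LinearMap.range (h * X).mulVecLin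
      ≤ LinearMap.ker p.mulVecLin := by
    rw [sup_le_iff]
    constructor
    · rintro _ ⟨v, rfl⟩
      rw [LinearMap.mem_ker, Matrix.mulVecLin_apply, Matrix.mulVecLin_apply, Matrix.mulVec_mulVec]
      have : p * (X * h) = 0 := by
        rw [hp, sub_mul, sub_mul, one_mul, ← mul_assoc, hXhX, mul_assoc h X, ← mul_assoc X X,
          hXX, zero_mul, mul_zero, sub_zero, sub_self]
      rw [this, Matrix.zero_mulVec]
    · rintro _ ⟨v, rfl⟩
      rw [LinearMap.mem_ker, Matrix.mulVecLin_apply, Matrix.mulVecLin_apply, Matrix.mulVec_mulVec]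
      have : p * (h * X) = 0 := by
        rw [hp, sub_mul, sub_mul, one_mul, mul_assoc X h, ← mul_assoc h h, hh, zero_mul, mul_zero,
          sub_zero, ← mul_assoc, hhXh, sub_self]
      rw [this, Matrix.zero_mulVec]
  have hdis : LinearMap.range (X * h).mulVecLin ⊓ LinearMap.range (h * X).mulVecLin = ⊥ := by
    rw [eq_bot_iff]
    rintro _ ⟨⟨v, rfl⟩, ⟨w, hw⟩⟩
    rw [Submodule.mem_bot]
    simp only [Matrix.mulVecLin_apply] at hw ⊢
    have h3 : (X * h).mulVec ((X * h).mulVec v) = (X * h).mulVec v := by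
      rw [Matrix.mulVec_mulVec, ← mul_assoc, hXhX]
    have h4 : (X * h).mulVec ((h * X).mulVec w) = 0 := by
      rw [Matrix.mulVec_mulVec, mul_assoc, ← mul_assoc h h, hh, zero_mul, mul_zero,
        Matrix.zero_mulVec]
    rw [← h3, ← hw, h4]
  have h3 := Submodule.finrank_sup_add_finrank_inf_eq (LinearMap.range (X * h).mulVecLin)
    (LinearMap.range (h * X).mulVecLin)
  rw [hdis, finrank_bot, add_zero] at h3
  change _ = (X * h).rank + (h * X).rank at h3
  rw [h1, h2] at h3
  have h4 := Submodule.finrank_mono hle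
  have h5 := p.mulVecLin.finrank_range_add_finrank_ker
  rw [Module.finrank_fintype_fun_eq_card] at h5
  rw [Matrix.rank]
  omega

theorem natCast_trace {e : Matrix n n K} (he : e * e = e) : e.trace = (e.rank : K) := by
  have h1 : IsIdempotentElem e.mulVecLin := by
    change e.mulVecLin ∘ₗ e.mulVecLin = _
    rw [← Matrix.mulVecLin_mul, he]
  have h2 := (LinearMap.IsIdempotentElem.isProj_range _ h1).trace
  rw [← Matrix.rank] at h2
  rw [← h2, ← Matrix.toLin'_apply', Matrix.trace_toLin'_eq]

/-- The normal form. -/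
theorem exists_NF {X : Matrix n n K} (hXX : X * X = 0)
    (hc : Fintype.card n = 2 * X.rank + 1) :
    ∃ h, NF X h ∧ ∃ m : ℕ, (X * h).trace = (m : K) := by
  have hN : Matrix.toLinAlgEquiv' X * Matrix.toLinAlgEquiv' X = 0 := by
    rw [← map_mul, hXX, map_zero]
  obtain ⟨h, h1, h2, h3⟩ := H77CI.exists_h _ hN
  obtain ⟨h, rfl⟩ := (Matrix.toLinAlgEquiv' (R := K) (n := n)).surjective h
  rw [← map_mul, ← map_mul, EquivLike.apply_eq_iff_eq] at h1 h2
  rw [← map_mul, map_eq_zero_iff _ (AlgEquiv.injective _)] at h3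
  refine ⟨h, ⟨hXX, h1, h2, h3, fun u => rank_one_sandwich (rank_compl hXX h1 h2 h3 hc) u⟩,
    (X * h).rank, natCast_trace ?_⟩
  rw [← mul_assoc, h1]

end H77GJ
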