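import Pool.Agent.Helper77.GJ.LemC
import Pool.Agent.Helper77.GJ.Fac

/-!
# MP_8096dd_al : generic Jordan type, integrality  (BLOCK GJ-R)

`O` is a principal ideal domain with a derivation `δ`, `X` and `a` are matrices over `O`, `X² = 0`,
`a X = X a`, `a` nilpotent, and `X c - c X = a` for some matrix `c` over a field `K` containing `O`.
Then `tr (c δX)` is in `O`.

Proof (uses `exists_fac` and `lemC`). Write `X = U P W`, `r U = 1`, `W s = 1`, `det P ≠ 0`.
* `W U = 0`: from `X X = 0`, multiplying by `r` on the left and `s` on the right, `P (W U) P = 0`.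
* `α = r a U`, `α' = W a s`. From `a U P W = U P W a`: `P W a s = r a U P` (so `P α' = α P`), and
  `(a U - U r a U) P = 0`, so `a U = U α`. Hence `U α ^ N = a ^ N U`, so `α` is nilpotent.
* Over `K` (write the same letters for the images): multiply `U P W c - c U P W = a` on the right by
  `U` (and on the left by `r`): `P (W c U) = α`, so `W c U = P⁻¹ α`.
* `δX = δU P W + U δP W + U P δW`.
  - `tr (c U δP W) = tr (W c U δP) = tr (P⁻¹ α δP) = tr (α δP P⁻¹)` is in `O` by `lemC` (with
    `α ^ N = 0 = P * 0`).
  - `P W c = r a + r c U P W` and `c U P = U P W c s - a s` (multiply the relation by `r` on the left,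
    by `s` on the right). So `tr (c δU P W) + tr (c U P δW) = tr (P W c δU) + tr (c U P δW)`
    `= tr (r a δU) - tr (a s δW) + tr (r c U P W δU) + tr (U P W c s δW)`. Since `W U = 0`,
    `δW U = - W δU`, so the last two terms are `tr ((r c U P - P W c s) W δU)`, and
    `r (X c - c X) s = r a s` gives `r c U P - P W c s = - r a s`.
  All this is in `O`.
-/

namespace H77GJ

open Matrix

namespace RegAux

theorem map_delta_mul {O : Type} [CommRing O] (δ : O →+ O)
    (hδ : ∀ a b, δ (a * b) = δ a * b + a * δ b) {l m n : Type} [Fintype m]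
    (A : Matrix l m O) (B : Matrix m n O) :
    (A * B).map δ = A.map δ * B + A * B.map δ := by
  ext i j
  simp only [Matrix.map_apply, Matrix.mul_apply, map_sum, hδ, Finset.sum_add_distrib,
    Matrix.add_apply]

theorem cancel_right {O : Type} [CommRing O] [IsDomain O] {ρ : ℕ}
    (P : Matrix (Fin ρ) (Fin ρ) O) (hP : P.det ≠ 0) {m : Type}
    (M : Matrix m (Fin ρ) O) (h : M * P = 0) : M = 0 := by
  have h1 : M * P * P.adjugate = 0 := by rw [h, Matrix.zero_mul]
  rw [Matrix.mul_assoc, Matrix.mul_adjugate, Matrix.mul_smul, Matrix.mul_one] at h1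
  ext i j
  have h2 := congrFun (congrFun h1 i) j
  simp only [Matrix.smul_apply, smul_eq_mul, Matrix.zero_apply, mul_eq_zero] at h2
  exact h2.resolve_left hP

theorem cancel_left {O : Type} [CommRing O] [IsDomain O] {ρ : ℕ}
    (P : Matrix (Fin ρ) (Fin ρ) O) (hP : P.det ≠ 0) {m : Type}
    (M : Matrix (Fin ρ) m O) (h : P * M = 0) : M = 0 := by
  have h1 : P.adjugate * (P * M) = 0 := by rw [h, Matrix.mul_zero]
  rw [← Matrix.mul_assoc, Matrix.adjugate_mul, Matrix.smul_mul, Matrix.one_mul] at h1
  ext i j
  have h2 := congrFun (congrFun h1 i) j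
  simp only [Matrix.smul_apply, smul_eq_mul, Matrix.zero_apply, mul_eq_zero] at h2
  exact h2.resolve_left hP

/-- The computation over `K`. -/
theorem main_id {K : Type} [Field K] {n : Type} [Fintype n] [DecidableEq n] {ρ : ℕ}
    (U : Matrix n (Fin ρ) K) (P : Matrix (Fin ρ) (Fin ρ) K) (W : Matrix (Fin ρ) n K)
    (r : Matrix (Fin ρ) n K) (s : Matrix n (Fin ρ) K) (X a c : Matrix n n K)
    (dU : Matrix n (Fin ρ) K) (dP : Matrix (Fin ρ) (Fin ρ) K) (dW : Matrix (Fin ρ) n K)
    (hX : X = U * P * W) (hr : r * U = 1) (hs : W * s = 1) (hP : P.det ≠ 0) (hWU : W * U = 0)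
    (hdWU : dW * U = - (W * dU)) (hc : X * c - c * X = a) :
    (c * (dU * P * W + U * dP * W + U * P * dW)).trace
      = (r * a * dU).trace - (a * s * dW).trace - (r * a * s * (W * dU)).trace
        + ((r * a * U) * dP * P⁻¹).trace := by
  have hrX : r * X = P * W := by
    rw [hX, Matrix.mul_assoc, ← Matrix.mul_assoc r, hr, Matrix.one_mul]
  have hXs : X * s = U * P := by
    rw [hX, Matrix.mul_assoc, hs, Matrix.mul_one]
  have hXU : X * U = 0 := by
    rw [hX, Matrix.mul_assoc, hWU, Matrix.mul_zero]
  have hu : IsUnit P.det := isUnit_iff_ne_zero.mpr hP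
  have hXc : X * c = a + c * X := by rw [← hc]; abel
  have hcX : c * X = X * c - a := by rw [← hc]; abel
  -- `P (W c U) = r a U`
  have h3 : P * (W * c * U) = r * a * U := by
    have e1 : P * (W * c * U) = (r * X) * c * U := by
      rw [hrX]; simp only [Matrix.mul_assoc]
    rw [e1, Matrix.mul_assoc r X c, hXc, Matrix.mul_add, Matrix.add_mul, Matrix.mul_assoc r (c * X),
      Matrix.mul_assoc c X, hXU, Matrix.mul_zero, Matrix.mul_zero, add_zero]
  have h4 : W * c * U = P⁻¹ * (r * a * U) := by
    rw [← h3, ← Matrix.mul_assoc, Matrix.nonsing_inv_mul _ hu, Matrix.one_mul]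
  have h5 : P * W * c = r * a + r * c * X := by
    rw [← hrX, Matrix.mul_assoc r X c, hXc, Matrix.mul_add, Matrix.mul_assoc r c X]
  have h6 : c * (U * P) = X * c * s - a * s := by
    rw [← hXs, ← Matrix.mul_assoc, hcX, Matrix.sub_mul]
  have h7 : r * c * (U * P) = P * W * c * s - r * a * s := by
    rw [Matrix.mul_assoc r c, h6, Matrix.mul_sub, ← hrX]
    simp only [Matrix.mul_assoc]
  have t1 : (c * (dU * P * W)).trace = (r * a * dU).trace + (r * c * (U * P) * (W * dU)).trace := by
    have e1 : c * (dU * P * W) = (c * dU) * (P * W) := by simp only [Matrix.mul_assoc]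
    have e2 : P * W * (c * dU) = (P * W * c) * dU := by simp only [Matrix.mul_assoc]
    rw [e1, Matrix.trace_mul_comm, e2, h5, Matrix.add_mul, Matrix.trace_add]
    congr 2
    rw [hX]
    simp only [Matrix.mul_assoc]
  have t2 : (c * (U * dP * W)).trace = ((r * a * U) * dP * P⁻¹).trace := by
    have e1 : c * (U * dP * W) = (c * U * dP) * W := by simp only [Matrix.mul_assoc]
    have e2 : W * (c * U * dP) = (W * c * U) * dP := by simp only [Matrix.mul_assoc]
    have e3 : P⁻¹ * (r * a * U) * dP = P⁻¹ * (r * a * U * dP) := by simp only [Matrix.mul_assoc]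
    rw [e1, Matrix.trace_mul_comm, e2, h4, e3, Matrix.trace_mul_comm]
  have t3 : (c * (U * P * dW)).trace
      = - (P * W * c * s * (W * dU)).trace - (a * s * dW).trace := by
    have e1 : c * (U * P * dW) = (c * (U * P)) * dW := by simp only [Matrix.mul_assoc]
    have e2 : X * c * s * dW = U * (P * W * c * s * dW) := by
      rw [hX]; simp only [Matrix.mul_assoc]
    have e3 : P * W * c * s * dW * U = P * W * c * s * (dW * U) := by
      simp only [Matrix.mul_assoc]
    rw [e1, h6, Matrix.sub_mul, Matrix.trace_sub, e2, Matrix.trace_mul_comm, e3, hdWU,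
      Matrix.mul_neg, Matrix.trace_neg]
  rw [Matrix.mul_add, Matrix.mul_add, Matrix.trace_add, Matrix.trace_add, t1, t2, t3, h7,
    Matrix.sub_mul, Matrix.trace_sub]
  ring

end RegAux

open RegAux

theorem reg {O K : Type} [CommRing O] [IsDomain O] [IsPrincipalIdealRing O] [Field K]
    [Algebra O K] (hinj : Function.Injective (algebraMap O K)) (δ : O →+ O)
    (hδ : ∀ a b, δ (a * b) = δ a * b + a * δ b) {n : Type} [Fintype n] [DecidableEq n]
    (X a : Matrix n n O) (hX : X * X = 0) (haX : a * X = X * a) (ha : IsNilpotent a)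
    (c : Matrix n n K)
    (hc : X.map (algebraMap O K) * c - c * X.map (algebraMap O K) = a.map (algebraMap O K)) :
    ∃ o : O, (c * (X.map δ).map (algebraMap O K)).trace = algebraMap O K o := by
  classical
  obtain ⟨ρ, U, P, W, r, s, hXf, hr, hs, hP⟩ := exists_fac X
  -- `W U = 0`
  have hWU : W * U = 0 := by
    have h1 : U * P * W * (U * P * W) = 0 := by rw [← hXf]; exact hX
    have h2 : P * (W * U * P) = 0 := by
      have e : P * (W * U * P) = r * (U * P * W * (U * P * W)) * s := by
        have e1 : r * (U * P * W * (U * P * W)) * s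
            = (r * U) * P * (W * U) * P * (W * s) := by simp only [Matrix.mul_assoc]
        rw [e1, hr, hs, Matrix.one_mul, Matrix.mul_one]
        simp only [Matrix.mul_assoc]
      rw [e, h1, Matrix.mul_zero, Matrix.zero_mul]
    exact cancel_right P hP _ (cancel_left P hP _ h2)
  -- `α P = P α'`
  have hαP : r * a * U * P = P * (W * a * s) := by
    have e1 : r * a * U * P = r * (a * (U * P * W)) * s := by
      have : r * (a * (U * P * W)) * s = r * a * U * P * (W * s) := by
        simp only [Matrix.mul_assoc]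
      rw [this, hs, Matrix.mul_one]
    have e2 : P * (W * a * s) = r * ((U * P * W) * a) * s := by
      have : r * ((U * P * W) * a) * s = (r * U) * P * W * a * s := by
        simp only [Matrix.mul_assoc]
      rw [this, hr, Matrix.one_mul]
      simp only [Matrix.mul_assoc]
    rw [e1, e2, ← hXf, haX]
  have haU : a * U = U * (r * a * U) := by
    have h1 : (a * U - U * (r * a * U)) * P = 0 := by
      rw [Matrix.sub_mul, Matrix.mul_assoc U, hαP]
      have e1 : a * U * P = a * (U * P * W) * s := by
        have : a * (U * P * W) * s = a * U * P * (W * s) := by simp only [Matrix.mul_assoc]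
        rw [this, hs, Matrix.mul_one]
      have e2 : U * (P * (W * a * s)) = (U * P * W) * a * s := by simp only [Matrix.mul_assoc]
      rw [e1, e2, ← hXf, haX, sub_self]
    exact sub_eq_zero.mp (cancel_right P hP _ h1)
  obtain ⟨N, hN⟩ := ha
  have hpow : ∀ k : ℕ, a ^ k * U = U * (r * a * U) ^ k := by
    intro k
    induction k with
    | zero => simp
    | succ k ih =>
      rw [pow_succ, Matrix.mul_assoc, haU, ← Matrix.mul_assoc, ih, Matrix.mul_assoc, ← pow_succ]
  have hαN : (r * a * U) ^ N = 0 := by
    have h1 : r * (U * (r * a * U) ^ N) = 0 := by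
      rw [← hpow, hN, Matrix.zero_mul, Matrix.mul_zero]
    rwa [← Matrix.mul_assoc, hr, Matrix.one_mul] at h1
  obtain ⟨o, ho⟩ := lemC (K := K) hinj δ hδ N P (r * a * U) (W * a * s) 0 hP hαP
    (by rw [hαN, Matrix.mul_zero])
  -- derivative
  have hdX : X.map δ = U.map δ * P * W + U * P.map δ * W + U * P * W.map δ := by
    rw [hXf, map_delta_mul δ hδ, map_delta_mul δ hδ, Matrix.add_mul]
  have hd0 : W.map δ * U = - (W * U.map δ) := by
    have h1 := map_delta_mul δ hδ W U
    rw [hWU] at h1
    have h2 : (0 : Matrix (Fin ρ) (Fin ρ) O).map δ = 0 := by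
      ext i j; simp
    rw [h2] at h1
    exact eq_neg_of_add_eq_zero_left h1.symm
  set F := algebraMap O K with hF
  have mm : ∀ {l m k : Type} [Fintype m] (A : Matrix l m O) (B : Matrix m k O),
      (A * B).map F = A.map F * B.map F := fun A B => Matrix.map_mul
  have m1 : ∀ {m : Type} [DecidableEq m], (1 : Matrix m m O).map F = 1 := by
    intro m _
    exact Matrix.map_one _ (map_zero F) (map_one F)
  have key := main_id (K := K) (U.map F) (P.map F) (W.map F) (r.map F) (s.map F) (X.map F)
    (a.map F) c ((U.map δ).map F) ((P.map δ).map F) ((W.map δ).map F)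
    (by rw [hXf, mm, mm]) (by rw [← mm, hr, m1]) (by rw [← mm, hs, m1])
    (by
      have : (P.map F).det = F P.det := by
        rw [← RingHom.mapMatrix_apply, ← RingHom.map_det]
      rw [this]
      intro h0
      exact hP (hinj (by rw [h0, map_zero])))
    (by rw [← mm, hWU]; ext i j; simp)
    (by
      rw [← mm, hd0, ← mm]
      ext i j
      simp only [Matrix.map_apply, Matrix.neg_apply, map_neg])
    hc
  refine ⟨(r * a * U.map δ).trace - (a * s * W.map δ).trace
    - (r * a * s * (W * U.map δ)).trace + o, ?_⟩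
  have tm : ∀ {m : Type} [Fintype m] (A : Matrix m m O), (A.map F).trace = F A.trace := by
    intro m _ A
    simp only [Matrix.trace, Matrix.diag_apply, Matrix.map_apply, map_sum]
  have e : (X.map δ).map F = (U.map δ).map F * P.map F * W.map F
      + U.map F * (P.map δ).map F * W.map F + U.map F * P.map F * (W.map δ).map F := by
    rw [hdX]
    have am : ∀ {l m : Type} (A B : Matrix l m O), (A + B).map F = A.map F + B.map F := by
      intro l m A B
      ext i j
      simp
    rw [am, am, mm, mm, mm, mm, mm, mm]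
  rw [e, key, map_add, map_sub, map_sub, ← ho, ← tm, ← tm, ← tm]
  simp only [mm]

end H77GJ
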