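import Mathlib

/-!
# MP_8096dd_al : twisting a ring homomorphism by derivations

`f : R → B` is a ring homomorphism, `d j` are derivations of `R` and `z j` commuting elements of
square zero in `B` which commute with the image of `f`.  `tws d z f l u = ∏ (1 + z_j d_j) f u`.
-/

namespace H77GJ

variable {R B J : Type} [Ring R] [Ring B]

/-- The twisted homomorphism. -/
def tws (d : J → R →+ R) (z : J → B) (f : R →+* B) : List J → R → B
  | [] => fun u => f u
  | j :: l => fun u => tws d z f l u + z j * tws d z f l (d j u)

variable {d : J → R →+ R} {z : J → B} {f : R →+* B}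

theorem tws_add (l : List J) (u v : R) : tws d z f l (u + v) = tws d z f l u + tws d z f l v := by
  induction l generalizing u v with
  | nil => exact map_add f u v
  | cons j l ih =>
    simp only [tws, map_add, ih, mul_add]
    abel

theorem tws_zero (l : List J) : tws d z f l 0 = 0 := by
  have h := tws_add (d := d) (z := z) (f := f) l 0 0
  rw [add_zero] at h
  exact left_eq_add.1 h

theorem tws_comm {b : B} (hb : ∀ u, b * f u = f u * b) (hz : ∀ j, b * z j = z j * b)
    (l : List J) (u : R) : b * tws d z f l u = tws d z f l u * b := by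
  induction l generalizing u with
  | nil => exact hb u
  | cons j l ih =>
    simp only [tws, mul_add, add_mul]
    rw [ih, ← mul_assoc, hz, mul_assoc, ih, mul_assoc]

/-- `f u` for an element killed by the derivations. -/
theorem tws_const (l : List J) (u : R) (hu : ∀ j ∈ l, d j u = 0) : tws d z f l u = f u := by
  induction l with
  | nil => rfl
  | cons j l ih =>
    simp only [tws]
    rw [ih fun i hi => hu i (List.mem_cons_of_mem _ hi), hu j List.mem_cons_self, tws_zero, mul_zero,
      add_zero]

theorem tws_mul (hd : ∀ j a b, d j (a * b) = d j a * b + a * d j b)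
    (hzz : ∀ j, z j * z j = 0) (hzc : ∀ i j, z i * z j = z j * z i)
    (hzf : ∀ j u, z j * f u = f u * z j) (l : List J) (u v : R) :
    tws d z f l (u * v) = tws d z f l u * tws d z f l v := by
  induction l generalizing u v with
  | nil => exact map_mul f u v
  | cons j l ih =>
    have hc : ∀ w, z j * tws d z f l w = tws d z f l w * z j := fun w =>
      tws_comm (fun u => hzf j u) (fun i => hzc j i) l w
    simp only [tws]
    rw [ih, hd, tws_add, ih, ih]
    have e1 : z j * tws d z f l (d j u) * (z j * tws d z f l (d j v)) = 0 := by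
      rw [hc (d j u), mul_assoc, ← mul_assoc (z j) (z j), hzz, zero_mul, mul_zero]
    have e2 : tws d z f l u * (z j * tws d z f l (d j v))
        = z j * (tws d z f l u * tws d z f l (d j v)) := by
      rw [← mul_assoc, ← hc, mul_assoc]
    have e3 : (tws d z f l u + z j * tws d z f l (d j u))
        * (tws d z f l v + z j * tws d z f l (d j v))
        = (tws d z f l u * tws d z f l v + tws d z f l u * (z j * tws d z f l (d j v)))
          + (z j * tws d z f l (d j u) * tws d z f l v
            + z j * tws d z f l (d j u) * (z j * tws d z f l (d j v))) := by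
      rw [add_mul, mul_add, mul_add]
    rw [e3, e1, e2, mul_add, mul_assoc]
    abel

/-- Vanishing of a functional. -/
theorem tws_functional {K : Type} [AddCommGroup K] (T : B →+ K) (Q : Set R) (Z : Set B)
    (hQ : ∀ j, ∀ u ∈ Q, d j u ∈ Q) (hZ : ∀ j, ∀ b ∈ Z, b * z j ∈ Z)
    (h0 : ∀ b ∈ Z, ∀ u ∈ Q, T (b * f u) = 0) (l : List J) :
    ∀ b ∈ Z, ∀ u ∈ Q, T (b * tws d z f l u) = 0 := by
  induction l with
  | nil => exact h0
  | cons j l ih =>
    intro b hb u hu
    simp only [tws, mul_add, map_add]
    rw [ih b hb u hu, ← mul_assoc, ih _ (hZ j b hb) _ (hQ j u hu), add_zero]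

/-- The functional on an element whose derivatives are in `Q`. -/
theorem tws_functional' {K : Type} [AddCommGroup K] (T : B →+ K) (Q : Set R) (Z : Set B)
    (hQ : ∀ j, ∀ u ∈ Q, d j u ∈ Q) (hZ : ∀ j, ∀ b ∈ Z, b * z j ∈ Z)
    (h0 : ∀ b ∈ Z, ∀ u ∈ Q, T (b * f u) = 0) (hz : ∀ j, z j ∈ Z) (l : List J) (u : R)
    (hu : ∀ j, d j u ∈ Q) : T (tws d z f l u) = T (f u) := by
  induction l with
  | nil => rfl
  | cons j l ih =>
    simp only [tws, map_add]
    rw [ih, tws_functional T Q Z hQ hZ h0 l _ (hz j) _ (hu j), add_zero]

/-- An element whose derivatives are killed by the other derivations. -/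
theorem tws_first (l : List J) (hl : l.Nodup) (u : R) (v : J → R) (hu : ∀ j, d j u = v j)
    (hv : ∀ i j, i ≠ j → d i (v j) = 0) :
    tws d z f l u = f u + (l.map fun j => z j * f (v j)).sum := by
  induction l with
  | nil => simp [tws]
  | cons j l ih =>
    have hl' := List.nodup_cons.1 hl
    simp only [tws, List.map_cons, List.sum_cons]
    rw [ih hl'.2, hu, tws_const l (v j) fun i hi => hv i j (fun h => hl'.1 (h ▸ hi))]
    abel

end H77GJ
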